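import Pool.Agent.V11253.RO.Cpt

set_option autoImplicit false
set_option linter.unusedVariables false

/-!
The theory of the order of words has a prime model, but no computable prime model.
-/

namespace Pool.Agent.V11253.RO

open FirstOrder FirstOrder.Language

abbrev SS : Set ℕ := {j | ∃ i, nn i = j + 1 ∧ ∀ N, ∃ s, N ≤ s ∧ Ev i s}

theorem mem_SS {j : ℕ} : j ∈ SS ↔ j + 1 ∈ F := by
  constructor
  · rintro ⟨i, h1, h2⟩
    exact ⟨i, h1.symm, h2⟩
  · rintro ⟨i, h1, h2⟩
    exact ⟨i, h1.symm, h2⟩

theorem SS_unbounded (N : ℕ) : ∃ j ∈ SS, N < j := by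
  obtain ⟨m, hm, hN⟩ := F_unbounded (N + 1)
  refine ⟨m - 1, mem_SS.2 ?_, by omega⟩
  rwa [show m - 1 + 1 = m by omega]

theorem SS_nonempty : ∃ j, j ∈ SS := by
  obtain ⟨j, hj, -⟩ := SS_unbounded 0
  exact ⟨j, hj⟩

theorem axW : Ax SS W := ax_wd fun i => Nat.succ_pos _

instance : Nonempty W := by
  obtain ⟨j, i, hi, hinf⟩ := SS_nonempty
  obtain ⟨h1, h2, h3⟩ := blk_at (n := nn) (E := Ev) (p := []) (by simp) hi hinf
  exact ⟨⟨[_], h1⟩⟩

noncomputable instance structW : Language.order.Structure W := orderStructure W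

instance : Language.order.OrderedStructure W := ⟨fun x => Iff.rfl⟩

abbrev P : Type := Fin' W

noncomputable instance structP : Language.order.Structure P := orderStructure P

instance : Language.order.OrderedStructure P := ⟨fun x => Iff.rfl⟩

theorem axP : Ax SS P := ax_fin axW SS_nonempty

instance : Nonempty P := by
  obtain ⟨j, hj⟩ := SS_nonempty
  obtain ⟨u, v, h, -⟩ := axW.below j hj (Classical.arbitrary W)
  exact ⟨⟨u, j, inB_first h⟩⟩

instance : Countable W := code_injective.countable

abbrev T : Language.order.Theory := Language.order.completeTheory W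

theorem modelP : P ⊨ T := elemEquiv SS_unbounded axW axP

theorem model_order (N : Type) [Language.order.Structure N] (hN : N ⊨ T) :
    ∃ inst : LinearOrder N, (∀ x y : N, x ≤ y ↔
      Structure.RelMap (IsOrdered.leSymb : Language.order.Relations 2) ![x, y]) ∧
      @Language.order.OrderedStructure N _ inst.toLE _ ∧ Nonempty N ∧ Ax SS N := by
  classical
  have h1 : N ⊨ Language.order.linearOrderTheory := by
    refine (Theory.model_iff _).2 fun φ hφ => ?_
    have h2 : W ⊨ φ := Theory.realize_sentence_of_mem Language.order.linearOrderTheory hφ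
    exact Theory.realize_sentence_of_mem T h2
  let inst : LinearOrder N := Language.order.linearOrderOfModels N
  have hO : Language.order.OrderedStructure N := inferInstance
  have hne : Nonempty N := by
    have : ∃ x : N, x ≤ x := by
      refine Dfn.transfer (A := W) (R := fun L _ => ∃ x : L, x ≤ x) ?_ hN
        ⟨Classical.arbitrary W, le_rfl⟩
      exact Dfn.ex (P := fun L _ _ x => x ≤ x) (Dfn.le 0 0)
    exact ⟨this.choose⟩
  exact ⟨inst, fun x y => Iff.rfl, hO, hne, ax_transfer (A := W) hN axW⟩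

theorem primeP (N : Type) [Language.order.Structure N] (hN : N ⊨ T) :
    Nonempty (P ↪ₑ[Language.order] N) := by
  obtain ⟨inst, -, hO, hne, hax⟩ := model_order N hN
  exact embed SS_unbounded axP (fin_inB axW SS_nonempty) hax

theorem no_computable_prime (M : Type) [Language.order.Structure M] (hM : M ⊨ T)
    (hp : Nonempty (M ↪ₑ[Language.order] P)) (f : M → ℕ) (hf : Function.Injective f)
    (hcomp : ComputablePred (fun p : ℕ × ℕ => ∃ x y : M, f x = p.1 ∧ f y = p.2 ∧
      Structure.RelMap (IsOrdered.leSymb : Language.order.Relations 2) ![x, y])) : False := by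
  obtain ⟨inst, hle, hO, hne, hax⟩ := model_order M hM
  obtain ⟨g⟩ := hp
  refine noncomp f hf ?_ ?_ ?_
  · refine hcomp.of_eq fun p => ?_
    simp only [hle]
  · intro n hn
    obtain ⟨i, h1, h2⟩ := hn
    obtain ⟨u, v, h3, -⟩ := hax.below i.unpair.1 ⟨i, rfl, h2⟩ hne.some
    obtain ⟨c, -, -, hc⟩ := steps_chn h3.st
    rw [h1]
    exact ⟨c, hc⟩
  · intro x
    obtain ⟨j, hj⟩ := fin_inB axW SS_nonempty (g x)
    obtain ⟨l, r, h1, h2, h3⟩ := inB_embed g hj
    obtain ⟨c, hc0, hc1, hc⟩ := steps_chn h1.st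
    obtain ⟨i, hi, hix⟩ := steps_mem hc hc0 hc1 h2 h3
    refine ⟨j + 1, mem_SS.1 (hax.size j l r h1), c, ⟨Nat.succ_pos _, hc, ?_, ?_⟩, i, by omega, hix⟩
    · rw [hc0]
      exact h1.np
    · rw [Nat.add_sub_cancel, hc1]
      exact h1.ns

end Pool.Agent.V11253.RO
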