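import Pool.Agent.V11253.RO.NonComp

set_option autoImplicit false

/-!
Blocks of linear orders, and the axioms of the orders in which the sizes of the finite blocks form
the set `F` and the blocks of each of these sizes are dense.
-/

namespace Pool.Agent.V11253.RO

section

variable {L : Type*} [LinearOrder L]

/-- No predecessor. -/
def NP (x : L) : Prop := ∀ w, ¬ w ⋖ x

/-- No successor. -/
def NS (x : L) : Prop := ∀ w, ¬ x ⋖ w

/-- `x ≤ y`, each element of `[x, y)` has a successor and each element of `(x, y]` has a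
predecessor. -/
def D (x y : L) : Prop :=
  x ≤ y ∧ (∀ z, x ≤ z → z < y → ∃ w, z ⋖ w) ∧ (∀ z, x < z → z ≤ y → ∃ w, w ⋖ z)

/-- `y` is the `j`-th successor of `x`. -/
def Steps : ℕ → L → L → Prop
  | 0, x, y => x = y
  | j + 1, x, y => ∃ z, x ⋖ z ∧ Steps j z y

theorem D_refl (x : L) : D x x :=
  ⟨le_rfl, fun _ h h' => absurd h' (not_lt.2 h), fun _ h h' => absurd h (not_lt.2 h')⟩

theorem D_trans {x y z : L} (h : D x y) (h' : D y z) : D x z := by
  refine ⟨h.1.trans h'.1, fun w h1 h2 => ?_, fun w h1 h2 => ?_⟩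
  · rcases lt_or_ge w y with h3 | h3
    · exact h.2.1 w h1 h3
    · exact h'.2.1 w h3 h2
  · rcases le_or_gt w y with h3 | h3
    · exact h.2.2 w h1 h3
    · exact h'.2.2 w h3 h2

theorem D_left {x y z : L} (h : D x z) (h1 : x ≤ y) (h2 : y ≤ z) : D x y :=
  ⟨h1, fun w h3 h4 => h.2.1 w h3 (h4.trans_le h2), fun w h3 h4 => h.2.2 w h3 (h4.trans h2)⟩

theorem D_right {x y z : L} (h : D x z) (h1 : x ≤ y) (h2 : y ≤ z) : D y z :=
  ⟨h2, fun w h3 h4 => h.2.1 w (h1.trans h3) h4, fun w h3 h4 => h.2.2 w (h1.trans_lt h3) h4⟩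

theorem D_iff {x y z : L} (h1 : x ≤ y) (h2 : y ≤ z) : D x z ↔ D x y ∧ D y z :=
  ⟨fun h => ⟨D_left h h1 h2, D_right h h1 h2⟩, fun h => D_trans h.1 h.2⟩

theorem steps_D {j : ℕ} {x y : L} (h : Steps j x y) : D x y := by
  induction j generalizing x with
  | zero =>
    cases h
    exact D_refl _
  | succ j ih =>
    obtain ⟨z, h1, h2⟩ := h
    refine D_trans ⟨h1.1.le, fun w h3 h4 => ?_, fun w h3 h4 => ?_⟩ (ih h2)
    · rcases h3.lt_or_eq with h5 | rfl
      · exact absurd h4 (h1.2 h5)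
      · exact ⟨z, h1⟩
    · rcases h4.lt_or_eq with h5 | rfl
      · exact absurd h5 (h1.2 h3)
      · exact ⟨x, h1⟩

theorem steps_le {j : ℕ} {x y : L} (h : Steps j x y) : x ≤ y := (steps_D h).1

theorem steps_lt {j : ℕ} {x y : L} (h : Steps (j + 1) x y) : x < y := by
  obtain ⟨z, h1, h2⟩ := h
  exact h1.1.trans_le (steps_le h2)

theorem steps_unique {j : ℕ} {x y y' : L} (h : Steps j x y) (h' : Steps j x y') : y = y' := by
  induction j generalizing x with
  | zero => exact Eq.trans (Eq.symm h) h'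
  | succ j ih =>
    obtain ⟨z, h1, h2⟩ := h
    obtain ⟨z', h1', h2'⟩ := h'
    cases covBy_unique_right h1 h1'
    exact ih h2 h2'

theorem steps_add {i j : ℕ} {x y z : L} (h : Steps i x y) (h' : Steps j y z) :
    Steps (i + j) x z := by
  induction i generalizing x with
  | zero =>
    cases h
    rwa [Nat.zero_add]
  | succ i ih =>
    obtain ⟨w, h1, h2⟩ := h
    rw [show i + 1 + j = (i + j) + 1 by omega]
    exact ⟨w, h1, ih h2⟩

theorem steps_split {j : ℕ} {x y z : L} (h : Steps j x z) (h1 : x ≤ y) (h2 : y ≤ z) :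
    ∃ i k, i + k = j ∧ Steps i x y ∧ Steps k y z := by
  induction j generalizing x with
  | zero =>
    cases h
    have := le_antisymm h1 h2
    subst this
    exact ⟨0, 0, rfl, rfl, rfl⟩
  | succ j ih =>
    obtain ⟨w, h3, h4⟩ := h
    rcases h1.lt_or_eq with h5 | rfl
    · have h6 : w ≤ y := not_lt.1 (h3.2 h5)
      obtain ⟨i, k, h7, h8, h9⟩ := ih h4 h6
      exact ⟨i + 1, k, by omega, ⟨w, h3, h8⟩, h9⟩
    · exact ⟨0, j + 1, by omega, rfl, w, h3, h4⟩

theorem steps_len {i j : ℕ} {x y : L} (h : Steps i x y) (h' : Steps j x y) : i = j := by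
  induction i generalizing x j with
  | zero =>
    cases h
    cases j with
    | zero => rfl
    | succ j => exact absurd (steps_lt h') (lt_irrefl _)
  | succ i ih =>
    cases j with
    | zero =>
      cases h'
      exact absurd (steps_lt h) (lt_irrefl _)
    | succ j =>
      obtain ⟨z, h1, h2⟩ := h
      obtain ⟨z', h1', h2'⟩ := h'
      cases covBy_unique_right h1 h1'
      rw [ih h2 h2']

/-- Going `j` steps up from `x`. -/
theorem steps_up {x y : L} (h : D x y) (j : ℕ) :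
    (∃ z, Steps j x z ∧ z ≤ y) ∨ ∃ i < j, Steps i x y := by
  induction j with
  | zero => exact Or.inl ⟨x, rfl, h.1⟩
  | succ j ih =>
    rcases ih with ⟨z, h1, h2⟩ | ⟨i, h1, h2⟩
    · rcases h2.lt_or_eq with h3 | rfl
      · obtain ⟨w, hw⟩ := h.2.1 z (steps_le h1) h3
        exact Or.inl ⟨w, steps_add h1 ⟨w, hw, rfl⟩, not_lt.1 fun h4 => hw.2 h3 h4⟩
      · exact Or.inr ⟨j, by omega, h1⟩
    · exact Or.inr ⟨i, by omega, h2⟩

/-- Going `j` steps down from `y`. -/
theorem steps_down {x y : L} (h : D x y) (j : ℕ) :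
    (∃ z, Steps j z y ∧ x ≤ z) ∨ ∃ i < j, Steps i x y := by
  induction j with
  | zero => exact Or.inl ⟨y, rfl, h.1⟩
  | succ j ih =>
    rcases ih with ⟨z, h1, h2⟩ | ⟨i, h1, h2⟩
    · rcases h2.lt_or_eq with h3 | rfl
      · obtain ⟨w, hw⟩ := h.2.2 z h3 (steps_le h1)
        exact Or.inl ⟨w, ⟨z, hw, h1⟩, not_lt.1 fun h4 => hw.2 h4 h3⟩
      · exact Or.inr ⟨j, by omega, h1⟩
    · exact Or.inr ⟨i, by omega, h2⟩

theorem steps_chn {j : ℕ} {x y : L} (h : Steps j x y) :
    ∃ c : ℕ → L, c 0 = x ∧ c j = y ∧ Chn (j + 1) c := by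
  induction j generalizing x with
  | zero => exact ⟨fun _ => x, rfl, h, fun i hi => by omega⟩
  | succ j ih =>
    obtain ⟨z, h1, h2⟩ := h
    obtain ⟨c, hc0, hc1, hc2⟩ := ih h2
    refine ⟨fun i => if i = 0 then x else c (i - 1), by simp, by simpa using hc1, ?_⟩
    intro i hi
    by_cases h0 : i = 0
    · subst h0
      simpa [hc0] using h1
    · have := hc2 (i - 1) (by omega)
      rw [show i - 1 + 1 = i by omega] at this
      simpa [h0] using this

theorem steps_of_chn {c : ℕ → L} {j m : ℕ} (hc : Chn (m + 1) c) {i : ℕ} (h : i + j ≤ m) :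
    Steps j (c i) (c (i + j)) := by
  induction j generalizing i with
  | zero => exact rfl
  | succ j ih =>
    refine ⟨c (i + 1), hc i (by omega), ?_⟩
    rw [show i + (j + 1) = i + 1 + j by omega]
    exact ih (by omega)

/-- A block of size `j + 1`, given by its first and its last element. -/
structure Blk (j : ℕ) (u v : L) : Prop where
  np : NP u
  ns : NS v
  st : Steps j u v

/-- An element between the ends of a finite block belongs to the chain. -/
theorem steps_mem {j : ℕ} {x y z : L} {c : ℕ → L} (hc : Chn (j + 1) c) (h0 : c 0 = x)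
    (h1 : c j = y) (h2 : x ≤ z) (h3 : z ≤ y) : ∃ i ≤ j, c i = z := by
  have h4 : Steps j x y := by
    rw [← h0, ← h1]
    have := steps_of_chn hc (i := 0) (j := j) (by omega)
    rwa [Nat.zero_add] at this
  obtain ⟨i, k, h5, h6, h7⟩ := steps_split h4 h2 h3
  refine ⟨i, by omega, ?_⟩
  have h8 := steps_of_chn hc (i := 0) (j := i) (by omega)
  rw [Nat.zero_add, h0] at h8
  exact steps_unique h8 h6

end

/-- The axioms. -/
structure Ax (S : Set ℕ) (L : Type*) [LinearOrder L] : Prop where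
  lend : ∀ x : L, ∃ l, D l x ∧ NP l
  rend : ∀ x : L, ∃ r, D x r ∧ NS r
  size : ∀ (j : ℕ) (u v : L), Blk j u v → j ∈ S
  dense : ∀ j ∈ S, ∀ x y : L, x < y → ¬ D x y → ∃ u v, Blk j u v ∧ x < u ∧ v < y
  below : ∀ j ∈ S, ∀ y : L, ∃ u v, Blk j u v ∧ v < y
  above : ∀ j ∈ S, ∀ x : L, ∃ u v, Blk j u v ∧ x < u

end Pool.Agent.V11253.RO
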