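import Mathlib

set_option autoImplicit false

/-!
Computability part: a computable family of event predicates `Ev i s` and the set `F` of the numbers
`m = i.unpair.1 + 1` such that `Ev i` holds infinitely often.
-/

namespace Pool.Agent.V11253.RO

open Nat.Partrec (Code)

/-- The `i`-th entry of the list coded by `u`. -/
def sq (u i : ℕ) : ℕ := (Denumerable.ofNat (List ℕ) u).getD i 0

theorem primrec_sq : Primrec₂ sq := by
  have h : Primrec₂ fun (l : List ℕ) (n : ℕ) => l.getD n 0 := Primrec.list_getD 0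
  exact (h.comp ((Primrec.ofNat (List ℕ)).comp Primrec.fst) Primrec.snd).to₂

theorem exists_sq (k : ℕ) (c : ℕ → ℕ) : ∃ u, ∀ i < k, sq u i = c i := by
  refine ⟨Encodable.encode (List.ofFn fun i : Fin k => c i), fun i hi => ?_⟩
  simp [sq, List.getD_eq_getElem?_getD, hi]

/-- The value at `(x, y)` of the `e`-th partial computable function, if found before stage `s`. -/
def ev (e s x y : ℕ) : Option ℕ := Code.evaln s (Denumerable.ofNat Code e) (Nat.pair x y)

theorem primrec_ev {α : Type*} [Primcodable α] {e s x y : α → ℕ} (he : Primrec e) (hs : Primrec s)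
    (hx : Primrec x) (hy : Primrec y) : Primrec fun a => ev (e a) (s a) (x a) (y a) :=
  Code.primrec_evaln.comp ((hs.pair ((Primrec.ofNat Code).comp he)).pair
    (Primrec₂.natPair.comp hx hy))

theorem ev_mono {e s t x y v : ℕ} (h : s ≤ t) (hv : ev e s x y = some v) : ev e t x y = some v :=
  Code.evaln_mono h hv

/-- Evidence before stage `s` that `x`, `y` are not consecutive. -/
def Refuted (e x y s : ℕ) : Prop :=
  ev e s x y = some 0 ∨ ev e s y x = some 1 ∨
    ∃ w < s, (w ≠ x ∧ w ≠ y) ∧ ev e s x w = some 1 ∧ ev e s w y = some 1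

theorem Refuted.mono {e x y s t : ℕ} (h : s ≤ t) : Refuted e x y s → Refuted e x y t := by
  rintro (h1 | h1 | ⟨w, h1, h2, h3, h4⟩)
  · exact Or.inl (ev_mono h h1)
  · exact Or.inr (Or.inl (ev_mono h h1))
  · exact Or.inr (Or.inr ⟨w, by omega, h2, ev_mono h h3, ev_mono h h4⟩)

/-- The list coded by `u` looks like a chain of length `k` at stage `s`. -/
def Unref (e k u s : ℕ) : Prop := ∀ i < k, i + 1 < k → ¬ Refuted e (sq u i) (sq u (i + 1)) s

theorem Unref.anti {e k u s t : ℕ} (h : s ≤ t) (ht : Unref e k u t) : Unref e k u s :=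
  fun i h1 h2 h3 => ht i h1 h2 (h3.mono h)

def Cand (e k w s : ℕ) : Prop :=
  Unref e (2 * e + 2) w.unpair.1 s ∧ Unref e k w.unpair.2 s ∧
    (∃ j < k, sq w.unpair.2 j = sq w.unpair.1 0) ∧
    ∀ u < w.unpair.1, ¬ Unref e (2 * e + 2) u s

/-- The guesses of `i = (m - 1, a)` at stage `s`, up to `l`. -/
def G (i s l : ℕ) : Prop :=
  ∀ e < (i.unpair.1 + 1) / 2,
    (sq i.unpair.2 e = 0 → ∀ w < l, ¬ Cand e (i.unpair.1 + 1) w s) ∧
    (sq i.unpair.2 e ≠ 0 → Cand e (i.unpair.1 + 2) (sq i.unpair.2 e - 1) s)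

/-- The event number `s` of `i`. -/
def Ev (i s : ℕ) : Prop := ∃ l < s + 1, G i s l ∧ ∀ t < s, l ≤ t → ¬ G i t l

section primrec

variable {α : Type*} [Primcodable α]

theorem bex {R : α × ℕ → Prop} (hR : PrimrecPred R) {f : α → ℕ} (hf : Primrec f) :
    PrimrecPred fun a => ∃ x < f a, R (a, x) := by
  have hR' : PrimrecRel fun (x : ℕ) (a : α) => R (a, x) :=
    hR.comp (Primrec.pair Primrec.snd Primrec.fst)
  have h := (hR'.exists_mem_list).comp (Primrec.list_range.comp hf) Primrec.id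
  exact h.of_eq fun a => by simp

theorem ball {R : α × ℕ → Prop} (hR : PrimrecPred R) {f : α → ℕ} (hf : Primrec f) :
    PrimrecPred fun a => ∀ x < f a, R (a, x) := by
  have hR' : PrimrecRel fun (x : ℕ) (a : α) => R (a, x) :=
    hR.comp (Primrec.pair Primrec.snd Primrec.fst)
  have h := (hR'.forall_mem_list).comp (Primrec.list_range.comp hf) Primrec.id
  exact h.of_eq fun a => by simp

theorem pimp {p q : α → Prop} (hp : PrimrecPred p) (hq : PrimrecPred q) :
    PrimrecPred fun a => p a → q a :=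
  (hp.not.or hq).of_eq fun a => by tauto

theorem primrec_refuted {e x y s : α → ℕ} (he : Primrec e) (hx : Primrec x) (hy : Primrec y)
    (hs : Primrec s) : PrimrecPred fun a => Refuted (e a) (x a) (y a) (s a) := by
  unfold Refuted
  refine (Primrec.eq.comp (primrec_ev he hs hx hy) (Primrec.const _)).or
    ((Primrec.eq.comp (primrec_ev he hs hy hx) (Primrec.const _)).or
      ((bex (R := fun p : α × ℕ => (p.2 ≠ x p.1 ∧ p.2 ≠ y p.1) ∧
        ev (e p.1) (s p.1) (x p.1) p.2 = some 1 ∧ ev (e p.1) (s p.1) p.2 (y p.1) = some 1)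
        ?_ hs).of_eq fun a => Iff.rfl))
  have e' := he.comp (Primrec.fst (α := α) (β := ℕ))
  have x' := hx.comp (Primrec.fst (α := α) (β := ℕ))
  have y' := hy.comp (Primrec.fst (α := α) (β := ℕ))
  have s' := hs.comp (Primrec.fst (α := α) (β := ℕ))
  have w' := (Primrec.snd (α := α) (β := ℕ))
  exact ((Primrec.eq.comp w' x').not.and (Primrec.eq.comp w' y').not).and
    ((Primrec.eq.comp (primrec_ev e' s' x' w') (Primrec.const _)).and
      (Primrec.eq.comp (primrec_ev e' s' w' y') (Primrec.const _)))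

theorem primrec_unref {e k u s : α → ℕ} (he : Primrec e) (hk : Primrec k) (hu : Primrec u)
    (hs : Primrec s) : PrimrecPred fun a => Unref (e a) (k a) (u a) (s a) := by
  unfold Unref
  have e' := he.comp (Primrec.fst (α := α) (β := ℕ))
  have k' := hk.comp (Primrec.fst (α := α) (β := ℕ))
  have u' := hu.comp (Primrec.fst (α := α) (β := ℕ))
  have s' := hs.comp (Primrec.fst (α := α) (β := ℕ))
  have w' := (Primrec.snd (α := α) (β := ℕ))
  exact (ball (pimp (Primrec.nat_lt.comp (Primrec.succ.comp w') k')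
    (primrec_refuted e' (primrec_sq.comp u' w') (primrec_sq.comp u' (Primrec.succ.comp w'))
      s').not) hk).of_eq fun a => Iff.rfl

theorem primrec_cand {e k w s : α → ℕ} (he : Primrec e) (hk : Primrec k) (hw : Primrec w)
    (hs : Primrec s) : PrimrecPred fun a => Cand (e a) (k a) (w a) (s a) := by
  unfold Cand
  have w1 : Primrec fun a => (w a).unpair.1 := Primrec.fst.comp (Primrec.unpair.comp hw)
  have w2 : Primrec fun a => (w a).unpair.2 := Primrec.snd.comp (Primrec.unpair.comp hw)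
  have d : Primrec fun a => 2 * e a + 2 :=
    Primrec.nat_add.comp (Primrec.nat_mul.comp (Primrec.const 2) he) (Primrec.const 2)
  have f := (Primrec.fst (α := α) (β := ℕ))
  have g := (Primrec.snd (α := α) (β := ℕ))
  have h1 : PrimrecPred fun p : α × ℕ => sq (w p.1).unpair.2 p.2 = sq (w p.1).unpair.1 0 :=
    Primrec.eq.comp (primrec_sq.comp (w2.comp f) g) (primrec_sq.comp (w1.comp f)
      (Primrec.const 0))
  have h2 : PrimrecPred fun p : α × ℕ => ¬ Unref (e p.1) (2 * e p.1 + 2) p.2 (s p.1) :=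
    (primrec_unref (he.comp f) (d.comp f) g (hs.comp f)).not
  exact ((primrec_unref he d w1 hs).and ((primrec_unref he hk w2 hs).and ((bex h1 hk).and
    (ball h2 w1)))).of_eq fun a => Iff.rfl

theorem primrec_G {i s l : α → ℕ} (hi : Primrec i) (hs : Primrec s) (hl : Primrec l) :
    PrimrecPred fun a => G (i a) (s a) (l a) := by
  unfold G
  have i1 : Primrec fun a => (i a).unpair.1 := Primrec.fst.comp (Primrec.unpair.comp hi)
  have i2 : Primrec fun a => (i a).unpair.2 := Primrec.snd.comp (Primrec.unpair.comp hi)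
  have f := (Primrec.fst (α := α) (β := ℕ))
  have g := (Primrec.snd (α := α) (β := ℕ))
  have f2 := (Primrec.fst (α := α × ℕ) (β := ℕ))
  have g2 := (Primrec.snd (α := α × ℕ) (β := ℕ))
  have h0 : PrimrecPred fun p : α × ℕ => sq (i p.1).unpair.2 p.2 = 0 :=
    Primrec.eq.comp (primrec_sq.comp (i2.comp f) g) (Primrec.const 0)
  have h1 : PrimrecPred fun p : (α × ℕ) × ℕ => ¬ Cand p.1.2 ((i p.1.1).unpair.1 + 1) p.2
      (s p.1.1) :=
    (primrec_cand (g.comp f2) ((Primrec.succ.comp i1).comp (f.comp f2)) g2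
      (hs.comp (f.comp f2))).not
  have h2 : PrimrecPred fun p : α × ℕ => Cand p.2 ((i p.1).unpair.1 + 2)
      (sq (i p.1).unpair.2 p.2 - 1) (s p.1) :=
    primrec_cand g ((Primrec.succ.comp (Primrec.succ.comp i1)).comp f)
      (Primrec.pred.comp (primrec_sq.comp (i2.comp f) g)) (hs.comp f)
  exact (ball ((pimp h0 (ball h1 (hl.comp f))).and (pimp h0.not h2))
    (Primrec.nat_div.comp (Primrec.succ.comp i1) (Primrec.const 2))).of_eq fun a => Iff.rfl

theorem primrec_Ev {i s : α → ℕ} (hi : Primrec i) (hs : Primrec s) :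
    PrimrecPred fun a => Ev (i a) (s a) := by
  unfold Ev
  have f := (Primrec.fst (α := α) (β := ℕ))
  have g := (Primrec.snd (α := α) (β := ℕ))
  have f2 := (Primrec.fst (α := α × ℕ) (β := ℕ))
  have g2 := (Primrec.snd (α := α × ℕ) (β := ℕ))
  have h1 : PrimrecPred fun p : (α × ℕ) × ℕ => p.1.2 ≤ p.2 :=
    Primrec.nat_le.comp (g.comp f2) g2
  have h2 : PrimrecPred fun p : (α × ℕ) × ℕ => ¬ G (i p.1.1) p.2 p.1.2 :=
    (primrec_G (hi.comp (f.comp f2)) g2 (g.comp f2)).not
  exact (bex ((primrec_G (hi.comp f) (hs.comp f) g).and (ball (pimp h1 h2) (hs.comp f)))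
    (Primrec.succ.comp hs)).of_eq fun a => Iff.rfl

end primrec

/-- Infinitely many events. -/
def Inf (i : ℕ) : Prop := ∀ N, ∃ s, N ≤ s ∧ Ev i s

/-- `w` is a true candidate. -/
def TC (e k w : ℕ) : Prop := ∃ s₀, ∀ s, s₀ ≤ s → Cand e k w s

theorem ec_anti {p : ℕ → Prop} (h : ∀ s t, s ≤ t → p t → p s) :
    (∃ s₀, ∀ s, s₀ ≤ s → p s) ∨ (∃ s₀, ∀ s, s₀ ≤ s → ¬ p s) := by
  by_cases h1 : ∀ s, p s
  · exact Or.inl ⟨0, fun s _ => h1 s⟩
  · push Not at h1
    obtain ⟨s, hs⟩ := h1
    exact Or.inr ⟨s, fun t ht hp => hs (h s t ht hp)⟩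

theorem ec_and {p q : ℕ → Prop} (hp : (∃ s₀, ∀ s, s₀ ≤ s → p s) ∨ (∃ s₀, ∀ s, s₀ ≤ s → ¬ p s))
    (hq : (∃ s₀, ∀ s, s₀ ≤ s → q s) ∨ (∃ s₀, ∀ s, s₀ ≤ s → ¬ q s)) :
    (∃ s₀, ∀ s, s₀ ≤ s → p s ∧ q s) ∨ (∃ s₀, ∀ s, s₀ ≤ s → ¬ (p s ∧ q s)) := by
  rcases hp with ⟨a, ha⟩ | ⟨a, ha⟩
  · rcases hq with ⟨b, hb⟩ | ⟨b, hb⟩
    · exact Or.inl ⟨max a b, fun s hs => ⟨ha s (by omega), hb s (by omega)⟩⟩
    · exact Or.inr ⟨b, fun s hs h => hb s hs h.2⟩
  · exact Or.inr ⟨a, fun s hs h => ha s hs h.1⟩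

theorem ec_const (p : Prop) : (∃ s₀ : ℕ, ∀ s, s₀ ≤ s → p) ∨ (∃ s₀ : ℕ, ∀ s, s₀ ≤ s → ¬ p) := by
  by_cases h : p
  · exact Or.inl ⟨0, fun _ _ => h⟩
  · exact Or.inr ⟨0, fun _ _ => h⟩

theorem ec_not {p : ℕ → Prop} (hp : (∃ s₀, ∀ s, s₀ ≤ s → p s) ∨ (∃ s₀, ∀ s, s₀ ≤ s → ¬ p s)) :
    (∃ s₀, ∀ s, s₀ ≤ s → ¬ p s) ∨ (∃ s₀, ∀ s, s₀ ≤ s → ¬ ¬ p s) := by
  rcases hp with ⟨a, ha⟩ | h
  · exact Or.inr ⟨a, fun s hs => not_not.2 (ha s hs)⟩
  · exact Or.inl h

theorem ec_ball {n : ℕ} {p : ℕ → ℕ → Prop}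
    (hp : ∀ x, (∃ s₀, ∀ s, s₀ ≤ s → p x s) ∨ (∃ s₀, ∀ s, s₀ ≤ s → ¬ p x s)) :
    (∃ s₀, ∀ s, s₀ ≤ s → ∀ x < n, p x s) ∨ (∃ s₀, ∀ s, s₀ ≤ s → ¬ ∀ x < n, p x s) := by
  induction n with
  | zero => exact Or.inl ⟨0, fun s _ x hx => absurd hx (by omega)⟩
  | succ n ih =>
    rcases ec_and ih (hp n) with ⟨a, ha⟩ | ⟨a, ha⟩
    · refine Or.inl ⟨a, fun s hs x hx => ?_⟩
      rcases Nat.lt_succ_iff_lt_or_eq.1 hx with h | rfl
      · exact (ha s hs).1 x h
      · exact (ha s hs).2
    · exact Or.inr ⟨a, fun s hs h => ha s hs ⟨fun x hx => h x (by omega), h n (by omega)⟩⟩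

theorem ec_unref (e k u : ℕ) :
    (∃ s₀, ∀ s, s₀ ≤ s → Unref e k u s) ∨ (∃ s₀, ∀ s, s₀ ≤ s → ¬ Unref e k u s) :=
  ec_anti fun _ _ h => Unref.anti h

theorem ec_cand (e k w : ℕ) : TC e k w ∨ (∃ s₀, ∀ s, s₀ ≤ s → ¬ Cand e k w s) :=
  ec_and (ec_unref _ _ _) (ec_and (ec_unref _ _ _) (ec_and (ec_const _)
    (ec_ball fun _ => ec_not (ec_unref _ _ _))))

/-- The chain coded by `u` is never refuted. -/
def Chain (e k u : ℕ) : Prop := ∀ s, Unref e k u s

theorem chain_of_ec {e k u s₀ : ℕ} (h : ∀ s, s₀ ≤ s → Unref e k u s) : Chain e k u :=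
  fun s => (h (max s s₀) (le_max_right _ _)).anti (le_max_left _ _)

theorem tc_iff (e k w : ℕ) : TC e k w ↔ Chain e (2 * e + 2) w.unpair.1 ∧ Chain e k w.unpair.2 ∧
    (∃ j < k, sq w.unpair.2 j = sq w.unpair.1 0) ∧
    ∀ u < w.unpair.1, ¬ Chain e (2 * e + 2) u := by
  constructor
  · rintro ⟨s₀, h⟩
    refine ⟨chain_of_ec fun s hs => (h s hs).1, chain_of_ec fun s hs => (h s hs).2.1,
      (h s₀ le_rfl).2.2.1, fun u hu hc => (h s₀ le_rfl).2.2.2 u hu (hc s₀)⟩
  · rintro ⟨h1, h2, h3, h4⟩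
    have h5 : ∃ s₀, ∀ s, s₀ ≤ s → ∀ u < w.unpair.1, ¬ Unref e (2 * e + 2) u s := by
      rcases ec_ball (n := w.unpair.1) (fun u => ec_not (ec_unref e (2 * e + 2) u)) with h | ⟨a, h⟩
      · exact h
      · exfalso
        have h6 : ∀ u < w.unpair.1, ∃ s, ¬ Unref e (2 * e + 2) u s := by
          intro u hu
          have := h4 u hu
          unfold Chain at this
          push Not at this
          exact this
        have h7 : ∃ b, ∀ u < w.unpair.1, ¬ Unref e (2 * e + 2) u b := by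
          generalize w.unpair.1 = n at h6
          induction n with
          | zero => exact ⟨0, fun u hu => absurd hu (by omega)⟩
          | succ n ih =>
            obtain ⟨b, hb⟩ := ih fun u hu => h6 u (by omega)
            obtain ⟨c, hc⟩ := h6 n (by omega)
            refine ⟨max b c, fun u hu h => ?_⟩
            rcases Nat.lt_succ_iff_lt_or_eq.1 hu with h' | rfl
            · exact hb u h' (h.anti (le_max_left _ _))
            · exact hc (h.anti (le_max_right _ _))
        obtain ⟨b, hb⟩ := h7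
        exact h (max a b) (le_max_left _ _) fun u hu hh => hb u hu (hh.anti (le_max_right _ _))
    obtain ⟨s₀, h5⟩ := h5
    exact ⟨s₀, fun s hs => ⟨h1 s, h2 s, h3, h5 s hs⟩⟩

theorem inf_iff_G (i : ℕ) : Inf i ↔ ∀ l, ∃ s, l ≤ s ∧ G i s l := by
  have hanti : ∀ {s l l' : ℕ}, l ≤ l' → G i s l' → G i s l := by
    intro s l l' h hG e he
    exact ⟨fun h0 w hw => (hG e he).1 h0 w (by omega), (hG e he).2⟩
  classical
  constructor
  · intro h l
    by_contra hcon
    push Not at hcon
    -- every event has its number below `l`, and different events have different numbers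
    have key : ∀ n, ∃ f : ℕ → ℕ × ℕ, (∀ k < n, Ev i (f k).1 ∧ (f k).2 < l ∧ (f k).2 ≤ (f k).1 ∧
        G i (f k).1 (f k).2 ∧ (∀ t < (f k).1, (f k).2 ≤ t → ¬ G i t (f k).2) ) ∧
        (∀ j k, j < k → k < n → (f j).1 < (f k).1) := by
      intro n
      induction n with
      | zero => exact ⟨fun _ => (0, 0), by intro k hk; omega, by intro j k _ hk; omega⟩
      | succ n ih =>
        obtain ⟨f, hf1, hf2⟩ := ih
        obtain ⟨s, hs1, hs2⟩ := h ((if 0 < n then (f (n - 1)).1 + 1 else 0) + l)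
        obtain ⟨l', hl', hG, hfst⟩ := id hs2
        have hl2 : l' < l := by
          by_contra hge
          exact hcon s (by omega) (hanti (by omega) hG)
        refine ⟨fun k => if k < n then f k else (s, l'), ?_, ?_⟩
        · intro k hk
          by_cases hkn : k < n
          · simp only [hkn, if_true]
            exact hf1 k hkn
          · simp only [hkn, if_false]
            exact ⟨hs2, hl2, by omega, hG, hfst⟩
        · intro j k hjk hk
          by_cases hkn : k < n
          · simp only [hkn, if_true, show j < n by omega]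
            exact hf2 j k hjk hkn
          · have hk' : k = n := by omega
            subst hk'
            simp only [hkn, if_false, hjk, if_true]
            have hn : 0 < k := by omega
            simp only [hn, if_true] at hs1
            rcases Nat.lt_or_ge j (k - 1) with h1 | h1
            · have := hf2 j (k - 1) h1 (by omega)
              omega
            · have : j = k - 1 := by omega
              subst this
              omega
    obtain ⟨f, hf1, hf2⟩ := key (l + 1)
    obtain ⟨j, hj, k, hk, hne, heq⟩ := Finset.exists_ne_map_eq_of_card_lt_of_maps_to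
      (s := Finset.range (l + 1)) (t := Finset.range l) (by simp) (f := fun k => (f k).2)
      (by
        intro k hk
        simp only [Finset.coe_range, Set.mem_Iio] at hk ⊢
        exact (hf1 k hk).2.1)
    simp only [Finset.mem_range] at hj hk
    have main : ∀ j k, j < k → k < l + 1 → (f j).2 = (f k).2 → False := by
      intro j k hjk hk heq
      have h1 := hf1 j (by omega)
      have h2 := hf1 k hk
      have h3 := hf2 j k hjk hk
      refine h2.2.2.2.2 (f j).1 h3 ?_ ?_
      · rw [← heq]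
        exact h1.2.2.1
      · rw [← heq]
        exact h1.2.2.2.1
    rcases Nat.lt_or_gt_of_ne hne with h' | h'
    · exact main j k h' hk heq
    · exact main k j h' hj heq.symm
  · intro h N
    let s := Nat.find (h N)
    have hs := Nat.find_spec (h N)
    refine ⟨s, hs.1, N, by have := hs.1; omega, hs.2, fun t ht hNt hG => ?_⟩
    exact Nat.find_min (h N) ht ⟨hNt, hG⟩

theorem inf_iff (i : ℕ) : Inf i ↔ ∀ e < (i.unpair.1 + 1) / 2,
    (sq i.unpair.2 e = 0 → ∀ w, ¬ TC e (i.unpair.1 + 1) w) ∧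
    (sq i.unpair.2 e ≠ 0 → TC e (i.unpair.1 + 2) (sq i.unpair.2 e - 1)) := by
  rw [inf_iff_G]
  constructor
  · intro h e he
    constructor
    · rintro h0 w ⟨s₀, hs₀⟩
      obtain ⟨s, hs, hG⟩ := h (max (w + 1) s₀)
      exact (hG e he).1 h0 w (by omega) (hs₀ s (by omega))
    · intro h0
      rcases ec_cand e (i.unpair.1 + 2) (sq i.unpair.2 e - 1) with h1 | ⟨s₀, hs₀⟩
      · exact h1
      · obtain ⟨s, hs, hG⟩ := h s₀
        exact absurd ((hG e he).2 h0) (hs₀ s hs)
  · intro h l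
    have : ∀ n ≤ (i.unpair.1 + 1) / 2, ∃ s₀, ∀ s, s₀ ≤ s → ∀ e < n,
        (sq i.unpair.2 e = 0 → ∀ w < l, ¬ Cand e (i.unpair.1 + 1) w s) ∧
        (sq i.unpair.2 e ≠ 0 → Cand e (i.unpair.1 + 2) (sq i.unpair.2 e - 1) s) := by
      intro n
      induction n with
      | zero => exact fun _ => ⟨0, fun s _ e he => absurd he (by omega)⟩
      | succ n ih =>
        intro hn
        obtain ⟨a, ha⟩ := ih (by omega)
        have h1 := h n (by omega)
        by_cases h0 : sq i.unpair.2 n = 0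
        · have h2 : ∃ b, ∀ s, b ≤ s → ∀ w < l, ¬ Cand n (i.unpair.1 + 1) w s := by
            have h3 := h1.1 h0
            clear h
            induction l with
            | zero => exact ⟨0, fun s _ w hw => absurd hw (by omega)⟩
            | succ l ih2 =>
              obtain ⟨b, hb⟩ := ih2 (by
                intro hn'
                obtain ⟨a', ha'⟩ := ih hn'
                refine ⟨a', fun s hs e he => ⟨fun h5 w hw => (ha' s hs e he).1 h5 w (by omega),
                  (ha' s hs e he).2⟩⟩) (by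
                intro s hs e he
                exact ⟨fun h5 w hw => (ha s hs e he).1 h5 w (by omega), (ha s hs e he).2⟩)
              obtain ⟨c, hc⟩ := (ec_cand n (i.unpair.1 + 1) l).resolve_left (h3 l)
              refine ⟨max b c, fun s hs w hw => ?_⟩
              rcases Nat.lt_succ_iff_lt_or_eq.1 hw with h' | rfl
              · exact hb s (by omega) w h'
              · exact hc s (by omega)
          obtain ⟨b, hb⟩ := h2
          refine ⟨max a b, fun s hs e he => ?_⟩
          rcases Nat.lt_succ_iff_lt_or_eq.1 he with h' | rfl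
          · exact ha s (by omega) e h'
          · exact ⟨fun _ => hb s (by omega), fun h' => absurd h0 h'⟩
        · obtain ⟨b, hb⟩ := h1.2 h0
          refine ⟨max a b, fun s hs e he => ?_⟩
          rcases Nat.lt_succ_iff_lt_or_eq.1 he with h' | rfl
          · exact ha s (by omega) e h'
          · exact ⟨fun h' => absurd h' h0, fun _ => hb s (by omega)⟩
    obtain ⟨s₀, hs₀⟩ := this _ le_rfl
    exact ⟨max s₀ l, le_max_right _ _, hs₀ _ (le_max_left _ _)⟩

/-- The set of block sizes. -/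
def F : Set ℕ := {m | ∃ i, m = i.unpair.1 + 1 ∧ Inf i}

theorem mem_F (m : ℕ) : m ∈ F ↔ 1 ≤ m ∧
    ∀ e < m / 2, (∀ w, ¬ TC e m w) ∨ (∃ w, TC e (m + 1) w) := by
  constructor
  · rintro ⟨i, rfl, hi⟩
    refine ⟨by omega, fun e he => ?_⟩
    have h := (inf_iff i).1 hi e he
    by_cases h0 : sq i.unpair.2 e = 0
    · exact Or.inl (h.1 h0)
    · exact Or.inr ⟨_, h.2 h0⟩
  · rintro ⟨h1, h2⟩
    classical
    obtain ⟨a, ha⟩ := exists_sq (m / 2) fun e =>
      if h : ∃ w, TC e (m + 1) w then h.choose + 1 else 0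
    refine ⟨Nat.pair (m - 1) a, by simp; omega, (inf_iff _).2 fun e he => ?_⟩
    simp only [Nat.unpair_pair] at he ⊢
    have hm : m - 1 + 1 = m := by omega
    rw [hm] at he
    rw [hm, show m - 1 + 2 = m + 1 by omega, ha e he]
    by_cases h : ∃ w, TC e (m + 1) w
    · simp only [h, dif_pos]
      exact ⟨fun h' => absurd h' (by omega), fun _ => by simpa using h.choose_spec⟩
    · simp only [h, dif_neg, not_false_eq_true]
      exact ⟨fun _ => (h2 e he).resolve_right h, fun h' => absurd rfl h'⟩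

theorem tc_down {e k w : ℕ} (hk : 1 ≤ k) (h : TC e (k + 1) w) : ∃ w', TC e k w' := by
  rw [tc_iff] at h
  obtain ⟨h1, h2, ⟨j, hj, hj'⟩, h4⟩ := h
  rcases Nat.lt_succ_iff_lt_or_eq.1 hj with hlt | rfl
  · refine ⟨w, (tc_iff _ _ _).2 ⟨h1, fun s i hi hi' => h2 s i (by omega) (by omega),
      ⟨j, hlt, hj'⟩, h4⟩⟩
  · obtain ⟨v, hv⟩ := exists_sq j fun i => sq w.unpair.2 (i + 1)
    refine ⟨Nat.pair w.unpair.1 v, (tc_iff _ _ _).2 ?_⟩
    simp only [Nat.unpair_pair]
    refine ⟨h1, fun s i hi hi' => ?_, ⟨j - 1, by omega, ?_⟩, h4⟩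
    · rw [hv i hi, hv (i + 1) hi']
      exact h2 s (i + 1) (by omega) (by omega)
    · rw [hv (j - 1) (by omega), show j - 1 + 1 = j by omega]
      exact hj'

theorem tc_down' {e k l w : ℕ} (hk : 1 ≤ k) (hkl : k ≤ l) (h : TC e l w) : ∃ w', TC e k w' := by
  induction l, hkl using Nat.le_induction generalizing w with
  | base => exact ⟨w, h⟩
  | succ l hl ih =>
    obtain ⟨w', h'⟩ := tc_down (by omega) h
    exact ih h'

theorem F_unbounded (N : ℕ) : ∃ m ∈ F, N < m := by
  by_contra hcon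
  push Not at hcon
  have h1 : ∀ m, N < m → ∃ e, e < m / 2 ∧ (∃ w, TC e m w) ∧ ∀ w, ¬ TC e (m + 1) w := by
    intro m hm
    by_contra h
    push Not at h
    have : m ∈ F := by
      rw [mem_F]
      refine ⟨by omega, fun e he => ?_⟩
      by_cases h' : ∃ w, TC e m w
      · exact Or.inr (h e he h')
      · push Not at h'
        exact Or.inl h'
    have := hcon m this
    omega
  choose! g hg1 hg2 hg3 using h1
  obtain ⟨j, hj, k, hk, hne, heq⟩ := Finset.exists_ne_map_eq_of_card_lt_of_maps_to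
      (s := Finset.Ioc N (2 * N + 2)) (t := Finset.range (N + 1)) (by simp; omega) (f := g)
      (by
        intro k hk
        simp only [Finset.coe_Ioc, Set.mem_Ioc, Finset.coe_range, Set.mem_Iio] at hk ⊢
        have := hg1 k hk.1
        omega)
  simp only [Finset.mem_Ioc] at hj hk
  have main : ∀ j k, N < j → j < k → g j = g k → False := by
    intro j k hj hjk heq
    obtain ⟨w, hw⟩ := hg2 k (by omega)
    obtain ⟨w', hw'⟩ := tc_down' (k := j + 1) (by omega) (by omega) hw
    rw [← heq] at hw'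
    exact hg3 j hj w' hw'
  rcases Nat.lt_or_gt_of_ne hne with h' | h'
  · exact main j k hj.1 h' heq
  · exact main k j hk.1 h' heq.symm

end Pool.Agent.V11253.RO
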