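import Pool.Agent.V11253.RO.Ord

set_option autoImplicit false
set_option linter.unusedVariables false

/-!
The order of words is computable.
-/

namespace Pool.Agent.V11253.RO

abbrev nn (i : ℕ) : ℕ := i.unpair.1 + 1

abbrev ltr0 : Letter := (0, 0, 0)

section

variable {α : Type*} [Primcodable α]

theorem primrec_mod2 {f : α → ℕ} (hf : Primrec f) (k : ℕ) : PrimrecPred fun a => f a % 2 = k :=
  Primrec.eq.comp (Primrec.nat_mod.comp hf (Primrec.const 2)) (Primrec.const k)

theorem primrec_div2 {f : α → ℕ} (hf : Primrec f) : Primrec fun a => f a / 2 :=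
  Primrec.nat_div.comp hf (Primrec.const 2)

theorem primrec_zlt {f g : α → ℕ} (hf : Primrec f) (hg : Primrec g) :
    PrimrecPred fun a => zlt (f a) (g a) := by
  unfold zlt
  exact ((primrec_mod2 hf 0).and ((primrec_mod2 hg 0).and (Primrec.nat_lt.comp hf hg))).or
    (((primrec_mod2 hf 0).and (primrec_mod2 hg 1)).or
      ((primrec_mod2 hf 1).and ((primrec_mod2 hg 1).and (Primrec.nat_lt.comp hg hf))))

theorem primrec_llt {f g : α → Letter} (hf : Primrec f) (hg : Primrec g) :
    PrimrecPred fun a => llt (f a) (g a) := by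
  unfold llt
  have f1 := Primrec.fst.comp hf
  have g1 := Primrec.fst.comp hg
  have f2 := Primrec.fst.comp (Primrec.snd.comp hf)
  have g2 := Primrec.fst.comp (Primrec.snd.comp hg)
  have f3 := Primrec.snd.comp (Primrec.snd.comp hf)
  have g3 := Primrec.snd.comp (Primrec.snd.comp hg)
  exact (Primrec.nat_lt.comp f1 g1).or ((Primrec.eq.comp f1 g1).and
    ((Primrec.nat_lt.comp f2 g2).or ((Primrec.eq.comp f2 g2).and (primrec_zlt f3 g3))))

theorem primrec_vs {f g : α → ℕ} (hf : Primrec f) (hg : Primrec g) :
    PrimrecPred fun a => VS Ev (f a) (g a) := by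
  unfold VS
  exact (Primrec.eq.comp hg (Primrec.const 0)).or (primrec_Ev hf hg)

theorem primrec_sep {f : α → Letter} (hf : Primrec f) : PrimrecPred fun a => Sep Ev (f a) := by
  unfold Sep
  have f1 := Primrec.fst.comp hf
  have f2 := Primrec.fst.comp (Primrec.snd.comp hf)
  have f3 := Primrec.snd.comp (Primrec.snd.comp hf)
  exact (primrec_mod2 f1 0).and ((primrec_mod2 f2 0).and ((Primrec.eq.comp f3 (Primrec.const 0)).and
    (primrec_vs (primrec_div2 f1) (primrec_div2 f2))))

theorem primrec_trm {f : α → Letter} (hf : Primrec f) : PrimrecPred fun a => Trm nn Ev (f a) := by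
  unfold Trm
  have f1 := Primrec.fst.comp hf
  have f2 := Primrec.fst.comp (Primrec.snd.comp hf)
  have f3 := Primrec.snd.comp (Primrec.snd.comp hf)
  have h1 : Primrec fun a => nn ((f a).1 / 2) :=
    Primrec.succ.comp (Primrec.fst.comp (Primrec.unpair.comp (primrec_div2 f1)))
  exact ((primrec_mod2 f1 0).and ((primrec_mod2 f2 1).and
    (primrec_vs (primrec_div2 f1) (primrec_div2 f2)))).or
    ((primrec_mod2 f1 1).and ((Primrec.eq.comp f2 (Primrec.const 1)).and
      ((primrec_mod2 f3 0).and (Primrec.nat_lt.comp (primrec_div2 f3) h1))))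

end

theorem wlt_iff (l m : List Letter) : wlt l m ↔ ∃ i < l.length, i < m.length ∧
    (∀ j < i, l.getD j ltr0 = m.getD j ltr0) ∧ llt (l.getD i ltr0) (m.getD i ltr0) := by
  induction l generalizing m with
  | nil => simp
  | cons a l ih =>
    cases m with
    | nil => simp
    | cons b m =>
      rw [wlt_cons, ih]
      constructor
      · rintro (h | ⟨rfl, i, h1, h2, h3, h4⟩)
        · exact ⟨0, by simp, by simp, fun j hj => absurd hj (Nat.not_lt_zero _), by simpa using h⟩
        · refine ⟨i + 1, by simpa using h1, by simpa using h2, ?_, by simpa using h4⟩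
          intro j hj
          cases j with
          | zero => simp
          | succ j => simpa using h3 j (by omega)
      · rintro ⟨i, h1, h2, h3, h4⟩
        cases i with
        | zero => exact Or.inl (by simpa using h4)
        | succ i =>
          refine Or.inr ⟨by simpa using h3 0 (by omega), i, by simpa using h1, by simpa using h2,
            fun j hj => ?_, by simpa using h4⟩
          simpa using h3 (j + 1) (by omega)

theorem val_iff (n : ℕ → ℕ) (E : ℕ → ℕ → Prop) (l : List Letter) :
    Val n E l ↔ 0 < l.length ∧ ∀ i < l.length, (i + 1 < l.length → Sep E (l.getD i ltr0)) ∧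
      (i + 1 = l.length → Trm n E (l.getD i ltr0)) := by
  induction l with
  | nil => simp [Val]
  | cons a l ih =>
    cases l with
    | nil =>
      constructor
      · intro h
        refine ⟨by simp, fun i hi => ?_⟩
        have : i = 0 := by simpa using hi
        subst this
        exact ⟨fun h => by simp at h, fun _ => h⟩
      · rintro ⟨-, h⟩
        exact (h 0 (by simp)).2 (by simp)
    | cons b l =>
      have h0 : Val n E (a :: b :: l) ↔ Sep E a ∧ Val n E (b :: l) := Iff.rfl
      rw [h0, ih]
      constructor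
      · rintro ⟨h1, h2, h3⟩
        refine ⟨by simp, fun i hi => ?_⟩
        cases i with
        | zero => exact ⟨fun _ => by simpa using h1, fun h => by simp at h⟩
        | succ i =>
          have := h3 i (by simpa using hi)
          simpa using this
      · rintro ⟨-, h⟩
        refine ⟨by simpa using (h 0 (by simp)).1 (by simp), by simp, fun i hi => ?_⟩
        have := h (i + 1) (by simpa using hi)
        simpa using this

theorem primrec_getD {α : Type*} [Primcodable α] {f : α → List Letter} {g : α → ℕ}
    (hf : Primrec f) (hg : Primrec g) : Primrec fun a => (f a).getD (g a) ltr0 :=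
  (Primrec.list_getD ltr0).comp hf hg

theorem primrec_wlt {α : Type*} [Primcodable α] {f g : α → List Letter} (hf : Primrec f)
    (hg : Primrec g) : PrimrecPred fun a => wlt (f a) (g a) := by
  have f' := hf.comp (Primrec.fst (α := α) (β := ℕ))
  have g' := hg.comp (Primrec.fst (α := α) (β := ℕ))
  have i' := (Primrec.snd (α := α) (β := ℕ))
  have f'' := f'.comp (Primrec.fst (α := α × ℕ) (β := ℕ))
  have g'' := g'.comp (Primrec.fst (α := α × ℕ) (β := ℕ))
  have j' := (Primrec.snd (α := α × ℕ) (β := ℕ))
  have h1 : PrimrecPred fun p : α × ℕ =>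
      ∀ j < p.2, (f p.1).getD j ltr0 = (g p.1).getD j ltr0 :=
    (ball (R := fun q : (α × ℕ) × ℕ => (f q.1.1).getD q.2 ltr0 = (g q.1.1).getD q.2 ltr0)
      (Primrec.eq.comp (primrec_getD f'' j') (primrec_getD g'' j')) i').of_eq fun a => Iff.rfl
  have h2 : PrimrecPred fun p : α × ℕ => p.2 < (g p.1).length ∧
      (∀ j < p.2, (f p.1).getD j ltr0 = (g p.1).getD j ltr0) ∧
      llt ((f p.1).getD p.2 ltr0) ((g p.1).getD p.2 ltr0) :=
    (Primrec.nat_lt.comp i' (Primrec.list_length.comp g')).and
      (h1.and (primrec_llt (primrec_getD f' i') (primrec_getD g' i')))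
  exact (bex h2 (Primrec.list_length.comp hf)).of_eq fun a => (wlt_iff (f a) (g a)).symm

theorem primrec_val {α : Type*} [Primcodable α] {f : α → List Letter} (hf : Primrec f) :
    PrimrecPred fun a => Val nn Ev (f a) := by
  have f' := hf.comp (Primrec.fst (α := α) (β := ℕ))
  have i' := (Primrec.snd (α := α) (β := ℕ))
  have h1 : PrimrecPred fun p : α × ℕ =>
      (p.2 + 1 < (f p.1).length → Sep Ev ((f p.1).getD p.2 ltr0)) ∧
      (p.2 + 1 = (f p.1).length → Trm nn Ev ((f p.1).getD p.2 ltr0)) :=
    (pimp (Primrec.nat_lt.comp (Primrec.succ.comp i') (Primrec.list_length.comp f'))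
      (primrec_sep (primrec_getD f' i'))).and
    (pimp (Primrec.eq.comp (Primrec.succ.comp i') (Primrec.list_length.comp f'))
      (primrec_trm (primrec_getD f' i')))
  exact ((Primrec.nat_lt.comp (Primrec.const 0) (Primrec.list_length.comp hf)).and
    (ball h1 (Primrec.list_length.comp hf))).of_eq fun a => (val_iff nn Ev (f a)).symm

abbrev W : Type := Wd nn Ev

def code (x : W) : ℕ := Encodable.encode x.1

theorem code_injective : Function.Injective code := fun x y h =>
  Subtype.ext (Encodable.encode_injective h)

theorem mem_range_code (m : ℕ) :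
    m ∈ Set.range code ↔ Val nn Ev (Denumerable.ofNat (List Letter) m) := by
  constructor
  · rintro ⟨x, rfl⟩
    have h : Denumerable.ofNat (List Letter) (code x) = x.1 := Denumerable.ofNat_encode _
    rw [h]
    exact x.2
  · intro h
    exact ⟨⟨_, h⟩, Denumerable.encode_ofNat _⟩

theorem computable_range : ComputablePred fun m : ℕ => m ∈ Set.range code :=
  ((primrec_val (Primrec.ofNat (List Letter))).of_eq fun m =>
    (mem_range_code m).symm).computablePred

theorem computable_le : ComputablePred fun p : ℕ × ℕ => ∃ x y : W, code x = p.1 ∧ code y = p.2 ∧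
    x ≤ y := by
  have h1 : Primrec fun p : ℕ × ℕ => Denumerable.ofNat (List Letter) p.1 :=
    (Primrec.ofNat (List Letter)).comp Primrec.fst
  have h2 : Primrec fun p : ℕ × ℕ => Denumerable.ofNat (List Letter) p.2 :=
    (Primrec.ofNat (List Letter)).comp Primrec.snd
  have h3 := (primrec_val h1).and ((primrec_val h2).and
    ((Primrec.eq.comp h1 h2).or (primrec_wlt h1 h2)))
  refine (h3.of_eq fun p => ?_).computablePred
  constructor
  · rintro ⟨h4, h5, h6⟩
    refine ⟨⟨_, h4⟩, ⟨_, h5⟩, Denumerable.encode_ofNat _, Denumerable.encode_ofNat _, ?_⟩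
    rcases h6 with h6 | h6
    · exact Or.inl (Subtype.ext h6)
    · exact Or.inr h6
  · rintro ⟨x, y, hx, hy, hxy⟩
    have hx' : Denumerable.ofNat (List Letter) p.1 = x.1 := by
      rw [← hx]
      exact Denumerable.ofNat_encode _
    have hy' : Denumerable.ofNat (List Letter) p.2 = y.1 := by
      rw [← hy]
      exact Denumerable.ofNat_encode _
    rw [hx', hy']
    refine ⟨x.2, y.2, ?_⟩
    rcases hxy with rfl | hxy
    · exact Or.inl rfl
    · exact Or.inr hxy

end Pool.Agent.V11253.RO
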