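import Pool.Agent.V11253.RO.Blk

set_option autoImplicit false

/-!
Back and forth between two orders that satisfy the axioms.
-/

namespace Pool.Agent.V11253.RO

section

variable {A B : Type*} [LinearOrder A] [LinearOrder B]

/-- `p` is before `q` and they are related in the same way on both sides. -/
structure Cq (K : ℕ) (p q : A × B) : Prop where
  l1 : p.1 ≤ q.1
  l2 : p.2 ≤ q.2
  dd : D p.1 q.1 ↔ D p.2 q.2
  ss : ∀ j < K, (Steps j p.1 q.1 ↔ Steps j p.2 q.2)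

theorem steps_self {L : Type*} [LinearOrder L] {j : ℕ} {x : L} : Steps j x x ↔ j = 0 := by
  constructor
  · intro h
    exact steps_len h (j := 0) rfl
  · rintro rfl
    exact rfl

theorem steps_iff_eq {L : Type*} [LinearOrder L] {i j : ℕ} {x y : L} (h : Steps j x y) :
    Steps i x y ↔ i = j := by
  constructor
  · intro h'
    exact steps_len h' h
  · rintro rfl
    exact h

theorem Cq.refl (K : ℕ) (p : A × B) : Cq K p p :=
  ⟨le_rfl, le_rfl, ⟨fun _ => D_refl _, fun _ => D_refl _⟩, fun j _ => by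
    rw [steps_self, steps_self]⟩

theorem Cq.trans {K : ℕ} {p q r : A × B} (h : Cq K p q) (h' : Cq K q r) : Cq K p r := by
  refine ⟨h.l1.trans h'.l1, h.l2.trans h'.l2, ?_, fun j hj => ⟨fun hs => ?_, fun hs => ?_⟩⟩
  · rw [D_iff h.l1 h'.l1, D_iff h.l2 h'.l2, h.dd, h'.dd]
  · obtain ⟨i, k, h1, h2, h3⟩ := steps_split hs h.l1 h'.l1
    rw [← h1]
    exact steps_add ((h.ss i (by omega)).1 h2) ((h'.ss k (by omega)).1 h3)
  · obtain ⟨i, k, h1, h2, h3⟩ := steps_split hs h.l2 h'.l2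
    rw [← h1]
    exact steps_add ((h.ss i (by omega)).2 h2) ((h'.ss k (by omega)).2 h3)

theorem Cq.mono {K K' : ℕ} {p q : A × B} (hK : K' ≤ K) (h : Cq K p q) : Cq K' p q :=
  ⟨h.l1, h.l2, h.dd, fun j hj => h.ss j (by omega)⟩

theorem Cq.swap {K : ℕ} {p q : A × B} (h : Cq K p q) : Cq K p.swap q.swap :=
  ⟨h.l2, h.l1, h.dd.symm, fun j hj => (h.ss j hj).symm⟩

structure Sys (K : ℕ) (G : Set (A × B)) : Prop where
  pair : ∀ p ∈ G, ∀ q ∈ G, Cq K p q ∨ Cq K q p
  lc : ∀ p ∈ G, ∃ q ∈ G, D q.1 p.1 ∧ D q.2 p.2 ∧ NP q.1 ∧ NP q.2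
  rc : ∀ p ∈ G, ∃ q ∈ G, D p.1 q.1 ∧ D p.2 q.2 ∧ NS q.1 ∧ NS q.2

theorem Sys.mono {K K' : ℕ} {G : Set (A × B)} (hK : K' ≤ K) (h : Sys K G) : Sys K' G :=
  ⟨fun p hp q hq => (h.pair p hp q hq).imp (Cq.mono hK) (Cq.mono hK), h.lc, h.rc⟩

theorem Sys.swap {K : ℕ} {G : Set (A × B)} (h : Sys K G) : Sys K (Prod.swap '' G) := by
  refine ⟨?_, ?_, ?_⟩
  · rintro _ ⟨p, hp, rfl⟩ _ ⟨q, hq, rfl⟩
    exact (h.pair p hp q hq).imp Cq.swap Cq.swap
  · rintro _ ⟨p, hp, rfl⟩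
    obtain ⟨q, hq, h1, h2, h3, h4⟩ := h.lc p hp
    exact ⟨_, ⟨q, hq, rfl⟩, h2, h1, h4, h3⟩
  · rintro _ ⟨p, hp, rfl⟩
    obtain ⟨q, hq, h1, h2, h3, h4⟩ := h.rc p hp
    exact ⟨_, ⟨q, hq, rfl⟩, h2, h1, h4, h3⟩

theorem sys_empty (K : ℕ) : Sys K (∅ : Set (A × B)) :=
  ⟨fun p hp => hp.elim, fun p hp => hp.elim, fun p hp => hp.elim⟩

theorem Sys.of_le {K : ℕ} {G : Set (A × B)} (h : Sys K G) (hK : 0 < K) {p q : A × B} (hp : p ∈ G)
    (hq : q ∈ G) (hpq : p.1 ≤ q.1) : Cq K p q := by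
  rcases h.pair p hp q hq with h1 | h1
  · exact h1
  · have h2 : q.1 = p.1 := le_antisymm h1.l1 hpq
    have h3 : q.2 = p.2 := (h1.ss 0 hK).1 h2
    have : q = p := Prod.ext h2 h3
    rw [this]
    exact Cq.refl _ _

/-- The step inside a block. -/
theorem core {K : ℕ} {x y z : A} {x' z' : B} (h : Cq (2 * K) (x, x') (z, z'))
    (hD : D x z) (hxy : x ≤ y) (hyz : y ≤ z) :
    ∃ y', Cq K (x, x') (y, y') ∧ Cq K (y, y') (z, z') := by
  have hD' : D x' z' := h.dd.1 hD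
  by_cases h1 : ∃ j < K, Steps j x y
  · obtain ⟨j, hj, hs⟩ := h1
    rcases steps_up hD' j with ⟨y', h2, h3⟩ | ⟨i, hi, h2⟩
    · have h4 : x' ≤ y' := steps_le h2
      refine ⟨y', ⟨hxy, h4, ⟨fun _ => D_left hD' h4 h3, fun _ => D_left hD hxy hyz⟩, ?_⟩,
        ⟨hyz, h3, ⟨fun _ => D_right hD' h4 h3, fun _ => D_right hD hxy hyz⟩, ?_⟩⟩
      · intro i _
        simp only
        rw [steps_iff_eq hs, steps_iff_eq h2]
      · intro i hi
        simp only
        constructor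
        · intro h5
          have h6 := (h.ss (j + i) (by omega)).1 (steps_add hs h5)
          obtain ⟨i1, k1, h7, h8, h9⟩ := steps_split h6 h4 h3
          have := steps_len h8 h2
          have : k1 = i := by omega
          rwa [← this]
        · intro h5
          have h6 := (h.ss (j + i) (by omega)).2 (steps_add h2 h5)
          obtain ⟨i1, k1, h7, h8, h9⟩ := steps_split h6 hxy hyz
          have := steps_len h8 hs
          have : k1 = i := by omega
          rwa [← this]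
    · exfalso
      have h6 := (h.ss i (by omega)).2 h2
      obtain ⟨i1, k1, h7, h8, h9⟩ := steps_split h6 hxy hyz
      have := steps_len h8 hs
      omega
  · by_cases h1' : ∃ j < K, Steps j y z
    · obtain ⟨j, hj, hs⟩ := h1'
      rcases steps_down hD' j with ⟨y', h2, h3⟩ | ⟨i, hi, h2⟩
      · have h4 : y' ≤ z' := steps_le h2
        refine ⟨y', ⟨hxy, h3, ⟨fun _ => D_left hD' h3 h4, fun _ => D_left hD hxy hyz⟩, ?_⟩,
          ⟨hyz, h4, ⟨fun _ => D_right hD' h3 h4, fun _ => D_right hD hxy hyz⟩, ?_⟩⟩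
        · intro i hi
          simp only
          constructor
          · intro h5
            have h6 := (h.ss (i + j) (by omega)).1 (steps_add h5 hs)
            obtain ⟨i1, k1, h7, h8, h9⟩ := steps_split h6 h3 h4
            have := steps_len h9 h2
            have : i1 = i := by omega
            rwa [← this]
          · intro h5
            have h6 := (h.ss (i + j) (by omega)).2 (steps_add h5 h2)
            obtain ⟨i1, k1, h7, h8, h9⟩ := steps_split h6 hxy hyz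
            have := steps_len h9 hs
            have : i1 = i := by omega
            rwa [← this]
        · intro i _
          simp only
          rw [steps_iff_eq hs, steps_iff_eq h2]
      · exfalso
        have h6 := (h.ss i (by omega)).2 h2
        obtain ⟨i1, k1, h7, h8, h9⟩ := steps_split h6 hxy hyz
        have := steps_len h9 hs
        omega
    · rcases steps_up hD' K with ⟨y', h2, h3⟩ | ⟨i, hi, h2⟩
      · have h4 : x' ≤ y' := steps_le h2
        refine ⟨y', ⟨hxy, h4, ⟨fun _ => D_left hD' h4 h3, fun _ => D_left hD hxy hyz⟩, ?_⟩,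
          ⟨hyz, h3, ⟨fun _ => D_right hD' h4 h3, fun _ => D_right hD hxy hyz⟩, ?_⟩⟩
        · intro i hi
          simp only
          constructor
          · intro h5
            exact absurd ⟨i, hi, h5⟩ h1
          · intro h5
            have := steps_len h5 h2
            omega
        · intro i hi
          simp only
          constructor
          · intro h5
            exact absurd ⟨i, hi, h5⟩ h1'
          · intro h5
            exfalso
            have h6 := (h.ss (K + i) (by omega)).2 (steps_add h2 h5)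
            obtain ⟨i1, k1, h7, h8, h9⟩ := steps_split h6 hxy hyz
            rcases Nat.lt_or_ge i1 K with h10 | h10
            · exact h1 ⟨i1, h10, h8⟩
            · exact h1' ⟨k1, by omega, h9⟩
      · exfalso
        have h6 := (h.ss i (by omega)).2 h2
        obtain ⟨i1, k1, h7, h8, h9⟩ := steps_split h6 hxy hyz
        exact h1 ⟨i1, by omega, h8⟩

theorem ext_point {K : ℕ} {G : Set (A × B)} (hK : 0 < K) (hS : Sys (2 * K) G) (hG : G.Finite)
    (a : A) (h : ∃ p ∈ G, D p.1 a ∨ D a p.1) : ∃ b, Sys K (insert (a, b) G) := by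
  obtain ⟨p, hp, hpa⟩ := h
  have hl : ∃ q ∈ G, D q.1 a := by
    obtain ⟨q, hq, h1, h2, h3, h4⟩ := hS.lc p hp
    rcases hpa with hpa | hpa
    · exact ⟨q, hq, D_trans h1 hpa⟩
    · rcases le_or_gt q.1 a with h5 | h5
      · exact ⟨q, hq, D_left h1 h5 hpa.1⟩
      · obtain ⟨w, hw⟩ := hpa.2.2 q.1 h5 h1.1
        exact absurd hw (h3 w)
  have hr : ∃ q ∈ G, D a q.1 := by
    obtain ⟨q, hq, h1, h2, h3, h4⟩ := hS.rc p hp
    rcases hpa with hpa | hpa
    · rcases le_or_gt a q.1 with h5 | h5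
      · exact ⟨q, hq, D_right h1 hpa.1 h5⟩
      · obtain ⟨w, hw⟩ := hpa.2.1 q.1 h1.1 h5
        exact absurd hw (h3 w)
    · exact ⟨q, hq, D_trans hpa h1⟩
  obtain ⟨q, hq, hqa⟩ := hl
  obtain ⟨r, hr, har⟩ := hr
  obtain ⟨p1, ⟨hp1, hp1a⟩, hp1m⟩ := Set.exists_max_image {p ∈ G | p.1 ≤ a} Prod.fst
    (hG.subset fun p hp => hp.1) ⟨q, hq, hqa.1⟩
  obtain ⟨p2, ⟨hp2, hp2a⟩, hp2m⟩ := Set.exists_min_image {p ∈ G | a ≤ p.1} Prod.fst
    (hG.subset fun p hp => hp.1) ⟨r, hr, har.1⟩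
  have hD1 : D p1.1 a := D_right hqa (hp1m q ⟨hq, hqa.1⟩) hp1a
  have hD2 : D a p2.1 := D_left har hp2a (hp2m r ⟨hr, har.1⟩)
  have hcq : Cq (2 * K) p1 p2 := hS.of_le (by omega) hp1 hp2 (hp1a.trans hp2a)
  obtain ⟨b, hb1, hb2⟩ := core (x := p1.1) (y := a) (z := p2.1) (x' := p1.2) (z' := p2.2) hcq
    (D_trans hD1 hD2) hp1a hp2a
  refine ⟨b, ?_⟩
  have key : ∀ p ∈ G, Cq K p (a, b) ∨ Cq K (a, b) p := by
    intro p hp
    rcases le_total p.1 a with h1 | h1
    · exact Or.inl (((hS.of_le (by omega) hp hp1 (hp1m p ⟨hp, h1⟩)).mono (by omega)).trans hb1)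
    · exact Or.inr (hb2.trans ((hS.of_le (by omega) hp2 hp (hp2m p ⟨hp, h1⟩)).mono (by omega)))
  refine ⟨?_, ?_, ?_⟩
  · rintro p (rfl | hp) q (rfl | hq)
    · exact Or.inl (Cq.refl _ _)
    · exact (key q hq).symm
    · exact key p hp
    · exact (hS.pair p hp q hq).imp (Cq.mono (by omega)) (Cq.mono (by omega))
  · rintro p (rfl | hp)
    · obtain ⟨q, hq, h1, h2, h3, h4⟩ := hS.lc p1 hp1
      exact ⟨q, Or.inr hq, D_trans h1 hD1, D_trans h2 (hb1.dd.1 hD1), h3, h4⟩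
    · obtain ⟨q, hq, h1⟩ := hS.lc p hp
      exact ⟨q, Or.inr hq, h1⟩
  · rintro p (rfl | hp)
    · obtain ⟨q, hq, h1, h2, h3, h4⟩ := hS.rc p2 hp2
      exact ⟨q, Or.inr hq, D_trans hD2 h1, D_trans (hb2.dd.1 hD2) h2, h3, h4⟩
    · obtain ⟨q, hq, h1⟩ := hS.rc p hp
      exact ⟨q, Or.inr hq, h1⟩

theorem gap {S : Set ℕ} [Nonempty B] (hB : Ax S B) {K : ℕ} {G : Set (A × B)} (hK : 0 < K)
    (hS : Sys K G) (hG : G.Finite) {j : ℕ} (hj : j ∈ S) (a : A)
    (h : ∀ p ∈ G, ¬ D p.1 a ∧ ¬ D a p.1) :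
    ∃ u v : B, Blk j u v ∧ (∀ p ∈ G, p.1 ≤ a → p.2 < u) ∧ (∀ p ∈ G, a ≤ p.1 → v < p.2) := by
  by_cases h1 : ∃ p ∈ G, p.1 ≤ a
  · obtain ⟨q, hq, hqa⟩ := h1
    obtain ⟨p1, ⟨hp1, hp1a⟩, hp1m⟩ := Set.exists_max_image {p ∈ G | p.1 ≤ a} Prod.fst
      (hG.subset fun p hp => hp.1) ⟨q, hq, hqa⟩
    by_cases h2 : ∃ p ∈ G, a ≤ p.1
    · obtain ⟨r, hr, har⟩ := h2
      obtain ⟨p2, ⟨hp2, hp2a⟩, hp2m⟩ := Set.exists_min_image {p ∈ G | a ≤ p.1} Prod.fst
        (hG.subset fun p hp => hp.1) ⟨r, hr, har⟩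
      have h3 := hS.of_le hK hp1 hp2 (hp1a.trans hp2a)
      have h4 : ¬ D p1.2 p2.2 := by
        rw [← h3.dd]
        intro h5
        exact (h p1 hp1).1 (D_left h5 hp1a hp2a)
      have h5 : p1.2 < p2.2 := by
        refine h3.l2.lt_of_ne fun h6 => h4 ?_
        rw [h6]
        exact D_refl _
      obtain ⟨u, v, h6, h7, h8⟩ := hB.dense j hj _ _ h5 h4
      refine ⟨u, v, h6, fun p hp hpa => ?_, fun p hp hpa => ?_⟩
      · exact (hS.of_le hK hp hp1 (hp1m p ⟨hp, hpa⟩)).l2.trans_lt h7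
      · exact h8.trans_le (hS.of_le hK hp2 hp (hp2m p ⟨hp, hpa⟩)).l2
    · push Not at h2
      obtain ⟨u, v, h6, h7⟩ := hB.above j hj p1.2
      refine ⟨u, v, h6, fun p hp hpa => ?_, fun p hp hpa => absurd hpa (not_le.2 (h2 p hp))⟩
      exact (hS.of_le hK hp hp1 (hp1m p ⟨hp, hpa⟩)).l2.trans_lt h7
  · push Not at h1
    by_cases h2 : ∃ p ∈ G, a ≤ p.1
    · obtain ⟨r, hr, har⟩ := h2
      obtain ⟨p2, ⟨hp2, hp2a⟩, hp2m⟩ := Set.exists_min_image {p ∈ G | a ≤ p.1} Prod.fst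
        (hG.subset fun p hp => hp.1) ⟨r, hr, har⟩
      obtain ⟨u, v, h6, h8⟩ := hB.below j hj p2.2
      refine ⟨u, v, h6, fun p hp hpa => absurd hpa (not_le.2 (h1 p hp)), fun p hp hpa => ?_⟩
      exact h8.trans_le (hS.of_le hK hp2 hp (hp2m p ⟨hp, hpa⟩)).l2
    · push Not at h2
      obtain ⟨u, v, h6, -⟩ := hB.below j hj (Classical.arbitrary B)
      exact ⟨u, v, h6, fun p hp hpa => absurd hpa (not_le.2 (h1 p hp)),
        fun p hp hpa => absurd hpa (not_le.2 (h2 p hp))⟩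

theorem ins_block {K : ℕ} {G : Set (A × B)} (hS : Sys K G) (a : A)
    (h : ∀ p ∈ G, ¬ D p.1 a ∧ ¬ D a p.1) {j : ℕ} {u v : B} (hb : Blk j u v)
    (hu : ∀ p ∈ G, p.1 ≤ a → p.2 < u) (hv : ∀ p ∈ G, a ≤ p.1 → v < p.2) {l r : A} (hl : D l a)
    (hl' : NP l) (hr : D a r) (hr' : NS r) (hs : ∀ i < K, (Steps i l r ↔ Steps i u v)) :
    Sys K (insert (l, u) (insert (r, v) G)) := by
  have hDlr : D l r := D_trans hl hr
  have hDuv : D u v := steps_D hb.st
  have h1 : Cq K (l, u) (r, v) := ⟨hDlr.1, hDuv.1, ⟨fun _ => hDuv, fun _ => hDlr⟩, hs⟩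
  have h2 : ∀ p ∈ G, p.1 ≤ a → Cq K p (l, u) := by
    intro p hp hpa
    have h3 : p.1 ≤ l := by
      by_contra hcon
      push Not at hcon
      exact (h p hp).1 (D_right hl hcon.le hpa)
    have h4 : ¬ D p.1 l := fun h5 => (h p hp).1 (D_trans h5 hl)
    have h5 : ¬ D p.2 u := fun h6 => by
      obtain ⟨w, hw⟩ := h6.2.2 u (hu p hp hpa) le_rfl
      exact hb.np w hw
    exact ⟨h3, (hu p hp hpa).le, ⟨fun h6 => absurd h6 h4, fun h6 => absurd h6 h5⟩,
      fun i _ => ⟨fun h6 => absurd (steps_D h6) h4, fun h6 => absurd (steps_D h6) h5⟩⟩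
  have h3 : ∀ p ∈ G, a ≤ p.1 → Cq K (r, v) p := by
    intro p hp hpa
    have h3 : r ≤ p.1 := by
      by_contra hcon
      push Not at hcon
      exact (h p hp).2 (D_left hr hpa hcon.le)
    have h4 : ¬ D r p.1 := fun h5 => (h p hp).2 (D_trans hr h5)
    have h5 : ¬ D v p.2 := fun h6 => by
      obtain ⟨w, hw⟩ := h6.2.1 v le_rfl (hv p hp hpa)
      exact hb.ns w hw
    exact ⟨h3, (hv p hp hpa).le, ⟨fun h6 => absurd h6 h4, fun h6 => absurd h6 h5⟩,
      fun i _ => ⟨fun h6 => absurd (steps_D h6) h4, fun h6 => absurd (steps_D h6) h5⟩⟩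
  have kl : ∀ p ∈ G, Cq K p (l, u) ∨ Cq K (l, u) p := fun p hp =>
    (le_total p.1 a).imp (fun h => h2 p hp h) (fun h => h1.trans (h3 p hp h))
  have kr : ∀ p ∈ G, Cq K p (r, v) ∨ Cq K (r, v) p := fun p hp =>
    (le_total p.1 a).imp (fun h => (h2 p hp h).trans h1) (fun h => h3 p hp h)
  refine ⟨?_, ?_, ?_⟩
  · rintro p (rfl | rfl | hp) q (rfl | rfl | hq)
    · exact Or.inl (Cq.refl _ _)
    · exact Or.inl h1
    · exact (kl q hq).symm
    · exact Or.inr h1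
    · exact Or.inl (Cq.refl _ _)
    · exact (kr q hq).symm
    · exact kl p hp
    · exact kr p hp
    · exact hS.pair p hp q hq
  · rintro p (rfl | rfl | hp)
    · exact ⟨(l, u), Or.inl rfl, D_refl _, D_refl _, hl', hb.np⟩
    · exact ⟨(l, u), Or.inl rfl, hDlr, hDuv, hl', hb.np⟩
    · obtain ⟨q, hq, h4⟩ := hS.lc p hp
      exact ⟨q, Or.inr (Or.inr hq), h4⟩
  · rintro p (rfl | rfl | hp)
    · exact ⟨(r, v), Or.inr (Or.inl rfl), hDlr, hDuv, hr', hb.ns⟩
    · exact ⟨(r, v), Or.inr (Or.inl rfl), D_refl _, D_refl _, hr', hb.ns⟩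
    · obtain ⟨q, hq, h4⟩ := hS.rc p hp
      exact ⟨q, Or.inr (Or.inr hq), h4⟩

/-- The forth step. -/
theorem forth {S : Set ℕ} (hSu : ∀ N, ∃ j ∈ S, N < j) (hA : Ax S A) [Nonempty B] (hB : Ax S B)
    {K : ℕ} (hK : 0 < K) {G : Set (A × B)} (hG : G.Finite) (hS : Sys (2 * K) G) (a : A) :
    ∃ b, ∃ G' : Set (A × B), G ⊆ G' ∧ G'.Finite ∧ Sys K G' ∧ (a, b) ∈ G' := by
  by_cases h : ∃ p ∈ G, D p.1 a ∨ D a p.1
  · obtain ⟨b, hb⟩ := ext_point hK hS hG a h
    exact ⟨b, _, Set.subset_insert _ _, hG.insert _, hb, Or.inl rfl⟩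
  · push Not at h
    obtain ⟨l, hl, hl'⟩ := hA.lend a
    obtain ⟨r, hr, hr'⟩ := hA.rend a
    have : ∃ j ∈ S, ∀ u v : B, Blk j u v → ∀ i < 2 * K, (Steps i l r ↔ Steps i u v) := by
      by_cases h1 : ∃ j, Steps j l r
      · obtain ⟨j, hj⟩ := h1
        refine ⟨j, hA.size j l r ⟨hl', hr', hj⟩, fun u v hb i _ => ?_⟩
        rw [steps_iff_eq hj, steps_iff_eq hb.st]
      · obtain ⟨j, hj, hj'⟩ := hSu (2 * K)
        refine ⟨j, hj, fun u v hb i hi => ?_⟩
        rw [steps_iff_eq hb.st]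
        constructor
        · intro h2
          exact absurd ⟨i, h2⟩ h1
        · intro h2
          omega
    obtain ⟨j, hj, hj'⟩ := this
    obtain ⟨u, v, hb, hu, hv⟩ := gap hB (by omega) hS hG hj a h
    have h2 := ins_block hS a h hb hu hv hl hl' hr hr' (hj' u v hb)
    obtain ⟨b, h3⟩ := ext_point hK h2 ((hG.insert _).insert _) a ⟨(l, u), Or.inl rfl, Or.inl hl⟩
    exact ⟨b, _, ((Set.subset_insert _ _).trans (Set.subset_insert _ _)).trans
      (Set.subset_insert _ _), ((hG.insert _).insert _).insert _, h3, Or.inl rfl⟩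

/-- The forth step from a finite block, at all levels. -/
theorem forth_fin {S : Set ℕ} (hA : Ax S A) [Nonempty B] (hB : Ax S B)
    {G : Set (A × B)} (hG : G.Finite) (hS : ∀ K, Sys K G) (a : A)
    (ha : ∃ j l r, Blk j l r ∧ l ≤ a ∧ a ≤ r) :
    ∃ b, ∃ G' : Set (A × B), G ⊆ G' ∧ G'.Finite ∧ (∀ K, Sys K G') ∧ (a, b) ∈ G' := by
  obtain ⟨j, l, r, hlr, hla, har⟩ := ha
  have hDlr : D l r := steps_D hlr.st
  obtain ⟨i, k, hik, hi, hk⟩ := steps_split hlr.st hla har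
  -- the step once the block is in the domain
  have main : ∀ G : Set (A × B), G.Finite → (∀ K, Sys K G) → (∃ p ∈ G, p.1 = l) →
      ∃ b, ∀ K, Sys K (insert (a, b) G) := by
    rintro G hG hS ⟨p, hp, hpl⟩
    subst hpl
    have h1 : ∀ K, 0 < K → ∃ b, Sys K (insert (a, b) G) := fun K hK =>
      ext_point hK (hS _) hG a ⟨p, hp, Or.inl (D_left hDlr hla har)⟩
    have h2 : ∀ K b, i < K → Sys K (insert (a, b) G) → Steps i p.2 b := by
      intro K b hK hb
      have := hb.of_le (by omega) (p := p) (q := (a, b)) (Or.inr hp) (Or.inl rfl) hla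
      exact (this.ss i hK).1 hi
    obtain ⟨b, hb⟩ := h1 (i + 1) (by omega)
    refine ⟨b, fun K => ?_⟩
    obtain ⟨b', hb'⟩ := h1 (max K (i + 1)) (by omega)
    have h3 : b = b' := steps_unique (h2 _ b (by omega) hb) (h2 _ b' (by omega) hb')
    subst h3
    exact hb'.mono (by omega)
  by_cases h : ∃ p ∈ G, D p.1 a ∨ D a p.1
  · -- `l` is in the domain
    have h3 : ∃ p ∈ G, p.1 = l := by
      obtain ⟨p, hp, hpa⟩ := h
      obtain ⟨q, hq, h1, -, h2, -⟩ := (hS 1).lc p hp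
      refine ⟨q, hq, ?_⟩
      have h4 : q.1 ≤ a := by
        rcases hpa with hpa | hpa
        · exact h1.1.trans hpa.1
        · by_contra hcon
          push Not at hcon
          obtain ⟨w, hw⟩ := hpa.2.2 q.1 hcon h1.1
          exact h2 w hw
      have h5 : D q.1 a := by
        rcases hpa with hpa | hpa
        · exact D_trans h1 hpa
        · exact D_left h1 h4 hpa.1
      rcases lt_trichotomy q.1 l with h6 | h6 | h6
      · obtain ⟨w, hw⟩ := h5.2.2 l h6 hla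
        exact absurd hw (hlr.np w)
      · exact h6
      · obtain ⟨w, hw⟩ := (D_left hDlr hla har).2.2 q.1 h6 h4
        exact absurd hw (h2 w)
    obtain ⟨b, hb⟩ := main G hG hS h3
    exact ⟨b, _, Set.subset_insert _ _, hG.insert _, hb, Or.inl rfl⟩
  · push Not at h
    obtain ⟨u, v, hb, hu, hv⟩ := gap hB Nat.one_pos (hS 1) hG (hA.size j l r hlr) a h
    have h2 : ∀ K, Sys K (insert (l, u) (insert (r, v) G)) := fun K =>
      ins_block (hS K) a h hb hu hv (D_left hDlr hla har) hlr.np (D_right hDlr hla har) hlr.ns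
        (fun i _ => by rw [steps_iff_eq hlr.st, steps_iff_eq hb.st])
    obtain ⟨b, h3⟩ := main _ ((hG.insert _).insert _) h2 ⟨(l, u), Or.inl rfl, rfl⟩
    exact ⟨b, _, ((Set.subset_insert _ _).trans (Set.subset_insert _ _)).trans
      (Set.subset_insert _ _), ((hG.insert _).insert _).insert _, h3, Or.inl rfl⟩

end

end Pool.Agent.V11253.RO
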