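import Pool.Agent.V11253.RO.EF

set_option autoImplicit false
set_option linter.unusedVariables false

/-!
Formulas: preservation by the systems, definability of the axioms, the embedding of an order with
finite blocks.
-/

namespace Pool.Agent.V11253.RO

open FirstOrder FirstOrder.Language

theorem term_mem {α : Type} {n : ℕ} {A B : Type} [Language.order.Structure A]
    [Language.order.Structure B] {G : Set (A × B)} {v : α → A} {w : α → B} {xs : Fin n → A}
    {ys : Fin n → B} (hv : ∀ i, (v i, w i) ∈ G) (hxs : ∀ i, (xs i, ys i) ∈ G)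
    (t : Language.order.Term (α ⊕ Fin n)) :
    (t.realize (Sum.elim v xs), t.realize (Sum.elim w ys)) ∈ G := by
  cases t with
  | var i =>
    rcases i with i | i
    · exact hv i
    · exact hxs i
  | func f _ => exact f.elim

theorem Sys.le_iff {A B : Type*} [LinearOrder A] [LinearOrder B] {K : ℕ} {G : Set (A × B)}
    (h : Sys K G) (hK : 0 < K) {p q : A × B} (hp : p ∈ G) (hq : q ∈ G) :
    p.1 ≤ q.1 ↔ p.2 ≤ q.2 := by
  constructor
  · intro h1
    exact (h.of_le hK hp hq h1).l2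
  · intro h1
    rcases h.pair p hp q hq with h2 | h2
    · exact h2.l1
    · have h3 : q.2 = p.2 := le_antisymm h2.l2 h1
      have h4 : q.1 = p.1 := (h2.ss 0 hK).2 h3
      exact h4.symm.le

theorem realize_iff {S : Set ℕ} (hSu : ∀ N, ∃ j ∈ S, N < j) {α : Type} {n : ℕ}
    (φ : Language.order.BoundedFormula α n) :
    ∃ k : ℕ, ∀ (A B : Type) [LinearOrder A] [Language.order.Structure A]
      [Language.order.OrderedStructure A] [LinearOrder B] [Language.order.Structure B]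
      [Language.order.OrderedStructure B] [Nonempty A] [Nonempty B], Ax S A → Ax S B →
      ∀ G : Set (A × B), G.Finite → Sys (2 ^ k) G →
      ∀ (v : α → A) (w : α → B) (xs : Fin n → A) (ys : Fin n → B),
        (∀ i, (v i, w i) ∈ G) → (∀ i, (xs i, ys i) ∈ G) →
        (φ.Realize v xs ↔ φ.Realize w ys) := by
  induction φ with
  | falsum => exact ⟨0, fun A B _ _ _ _ _ _ _ _ _ _ G _ _ v w xs ys _ _ => Iff.rfl⟩
  | equal t₁ t₂ =>
    refine ⟨0, fun A B _ _ _ _ _ _ _ _ _ _ G _ hS v w xs ys hv hxs => ?_⟩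
    have h1 := term_mem hv hxs t₁
    have h2 := term_mem hv hxs t₂
    have h3 := hS.le_iff (by norm_num) h1 h2
    have h4 := hS.le_iff (by norm_num) h2 h1
    simp only [BoundedFormula.Realize]
    rw [le_antisymm_iff, le_antisymm_iff]
    exact and_congr h3 h4
  | rel R ts =>
    refine ⟨0, fun A B _ _ _ _ _ _ _ _ _ _ G _ hS v w xs ys hv hxs => ?_⟩
    cases R
    have h1 := term_mem hv hxs (ts 0)
    have h2 := term_mem hv hxs (ts 1)
    have h3 := hS.le_iff (by norm_num) h1 h2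
    have h4 := relMap_leSymb (L := Language.order) fun i => (ts i).realize (Sum.elim v xs)
    have h5 := relMap_leSymb (L := Language.order) fun i => (ts i).realize (Sum.elim w ys)
    exact h4.trans (h3.trans h5.symm)
  | imp f₁ f₂ ih₁ ih₂ =>
    obtain ⟨k₁, h₁⟩ := ih₁
    obtain ⟨k₂, h₂⟩ := ih₂
    refine ⟨max k₁ k₂, fun A B _ _ _ _ _ _ _ _ hA hB G hG hS v w xs ys hv hxs => ?_⟩
    have g₁ := h₁ A B hA hB G hG
      (hS.mono (Nat.pow_le_pow_right (by norm_num) (le_max_left _ _))) v w xs ys hv hxs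
    have g₂ := h₂ A B hA hB G hG
      (hS.mono (Nat.pow_le_pow_right (by norm_num) (le_max_right _ _))) v w xs ys hv hxs
    simp only [BoundedFormula.Realize]
    rw [g₁, g₂]
  | all f ih =>
    obtain ⟨k, h⟩ := ih
    refine ⟨k + 1, fun A B _ _ _ _ _ _ _ _ hA hB G hG hS v w xs ys hv hxs => ?_⟩
    have hS' : Sys (2 * 2 ^ k) G := by
      rw [pow_succ, mul_comm] at hS
      exact hS
    have hpos : 0 < 2 ^ k := by positivity
    simp only [BoundedFormula.Realize]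
    constructor
    · intro h1 b
      obtain ⟨a, G', h2, h3, h4, h5⟩ := forth hSu hB hA hpos (hG.image Prod.swap) hS'.swap b
      refine (h B A hB hA G' h3 h4 w v (Fin.snoc ys b) (Fin.snoc xs a) (fun i => h2 ⟨_, hv i, rfl⟩)
        ?_).2 (h1 a)
      intro i
      refine Fin.lastCases ?_ (fun i => ?_) i
      · simpa using h5
      · simpa using h2 ⟨_, hxs i, rfl⟩
    · intro h1 a
      obtain ⟨b, G', h2, h3, h4, h5⟩ := forth hSu hA hB hpos hG hS' a
      refine (h A B hA hB G' h3 h4 v w (Fin.snoc xs a) (Fin.snoc ys b) (fun i => h2 (hv i))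
        ?_).2 (h1 b)
      intro i
      refine Fin.lastCases ?_ (fun i => ?_) i
      · simpa using h5
      · simpa using h2 (hxs i)

/-- Definable relations. -/
def Dfn (n : ℕ) (R : ∀ (L : Type) [LinearOrder L], (Fin n → L) → Prop) : Prop :=
  ∃ φ : Language.order.BoundedFormula Empty n, ∀ (L : Type) [LinearOrder L]
    [Language.order.Structure L] [Language.order.OrderedStructure L] (v : Empty → L)
    (xs : Fin n → L), φ.Realize v xs ↔ R L xs

theorem Dfn.le {n : ℕ} (i j : Fin n) : Dfn n fun _ _ xs => xs i ≤ xs j :=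
  ⟨Term.le (Term.var (Sum.inr i)) (Term.var (Sum.inr j)), fun L _ _ _ v xs => by simp⟩

theorem Dfn.not {n : ℕ} {R : ∀ (L : Type) [LinearOrder L], (Fin n → L) → Prop} (h : Dfn n R) :
    Dfn n fun L _ xs => ¬ R L xs := by
  obtain ⟨φ, hφ⟩ := h
  exact ⟨φ.not, fun L _ _ _ v xs => by simp [hφ]⟩

theorem Dfn.and {n : ℕ} {R R' : ∀ (L : Type) [LinearOrder L], (Fin n → L) → Prop} (h : Dfn n R)
    (h' : Dfn n R') : Dfn n fun L _ xs => R L xs ∧ R' L xs := by
  obtain ⟨φ, hφ⟩ := h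
  obtain ⟨ψ, hψ⟩ := h'
  exact ⟨φ ⊓ ψ, fun L _ _ _ v xs => by simp [hφ, hψ]⟩

theorem Dfn.imp {n : ℕ} {R R' : ∀ (L : Type) [LinearOrder L], (Fin n → L) → Prop} (h : Dfn n R)
    (h' : Dfn n R') : Dfn n fun L _ xs => R L xs → R' L xs := by
  obtain ⟨φ, hφ⟩ := h
  obtain ⟨ψ, hψ⟩ := h'
  exact ⟨φ.imp ψ, fun L _ _ _ v xs => by simp [hφ, hψ]⟩

theorem Dfn.all {n : ℕ} {P : ∀ (L : Type) [LinearOrder L], (Fin n → L) → L → Prop}
    (h : Dfn (n + 1) fun L _ ys => P L (Fin.init ys) (ys (Fin.last n))) :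
    Dfn n fun L _ xs => ∀ x, P L xs x := by
  obtain ⟨φ, hφ⟩ := h
  exact ⟨φ.all, fun L _ _ _ v xs => by simp [hφ, BoundedFormula.realize_all]⟩

theorem Dfn.ex {n : ℕ} {P : ∀ (L : Type) [LinearOrder L], (Fin n → L) → L → Prop}
    (h : Dfn (n + 1) fun L _ ys => P L (Fin.init ys) (ys (Fin.last n))) :
    Dfn n fun L _ xs => ∃ x, P L xs x := by
  obtain ⟨φ, hφ⟩ := h
  exact ⟨φ.ex, fun L _ _ _ v xs => by simp [hφ, BoundedFormula.realize_ex]⟩

theorem Dfn.congr {n : ℕ} {R R' : ∀ (L : Type) [LinearOrder L], (Fin n → L) → Prop} (h : Dfn n R)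
    (h' : ∀ (L : Type) [LinearOrder L] (xs : Fin n → L), R L xs ↔ R' L xs) : Dfn n R' := by
  obtain ⟨φ, hφ⟩ := h
  exact ⟨φ, fun L _ _ _ v xs => (hφ L v xs).trans (h' L xs)⟩

theorem Dfn.lt {n : ℕ} (i j : Fin n) : Dfn n fun _ _ xs => xs i < xs j :=
  (Dfn.le j i).not.congr fun L _ xs => not_le

theorem Dfn.eq {n : ℕ} (i j : Fin n) : Dfn n fun _ _ xs => xs i = xs j :=
  ((Dfn.le i j).and (Dfn.le j i)).congr fun L _ xs => le_antisymm_iff.symm

theorem Dfn.cov {n : ℕ} (i j : Fin n) : Dfn n fun _ _ xs => xs i ⋖ xs j :=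
  (Dfn.lt i j).and (Dfn.all (P := fun L _ xs c => xs i < c → ¬ c < xs j)
    ((Dfn.lt i.castSucc (Fin.last n)).imp (Dfn.lt (Fin.last n) j.castSucc).not))

theorem Dfn.np {n : ℕ} (i : Fin n) : Dfn n fun _ _ xs => NP (xs i) :=
  Dfn.all (P := fun L _ xs w => ¬ w ⋖ xs i) (Dfn.cov (Fin.last n) i.castSucc).not

theorem Dfn.ns {n : ℕ} (i : Fin n) : Dfn n fun _ _ xs => NS (xs i) :=
  Dfn.all (P := fun L _ xs w => ¬ xs i ⋖ w) (Dfn.cov i.castSucc (Fin.last n)).not

theorem Dfn.d {n : ℕ} (i j : Fin n) : Dfn n fun _ _ xs => D (xs i) (xs j) :=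
  (Dfn.le i j).and ((Dfn.all (P := fun L _ xs z => xs i ≤ z → z < xs j → ∃ w, z ⋖ w)
    ((Dfn.le i.castSucc (Fin.last n)).imp ((Dfn.lt (Fin.last n) j.castSucc).imp
      (Dfn.ex (P := fun L _ xs w => xs (Fin.last n) ⋖ w)
        (Dfn.cov (Fin.last n).castSucc (Fin.last (n + 1))))))).and
    (Dfn.all (P := fun L _ xs z => xs i < z → z ≤ xs j → ∃ w, w ⋖ z)
    ((Dfn.lt i.castSucc (Fin.last n)).imp ((Dfn.le (Fin.last n) j.castSucc).imp
      (Dfn.ex (P := fun L _ xs w => w ⋖ xs (Fin.last n))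
        (Dfn.cov (Fin.last (n + 1)) (Fin.last n).castSucc))))))

theorem Dfn.steps (k : ℕ) : ∀ {n : ℕ} (i j : Fin n), Dfn n fun _ _ xs => Steps k (xs i) (xs j) := by
  induction k with
  | zero => exact fun i j => Dfn.eq i j
  | succ k ih =>
    intro n i j
    exact Dfn.ex (P := fun L _ xs z => xs i ⋖ z ∧ Steps k z (xs j))
      ((Dfn.cov i.castSucc (Fin.last n)).and (ih (Fin.last n) j.castSucc))

theorem Dfn.blk (k : ℕ) {n : ℕ} (i j : Fin n) : Dfn n fun _ _ xs => Blk k (xs i) (xs j) :=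
  ((Dfn.np i).and ((Dfn.ns j).and (Dfn.steps k i j))).congr fun L _ xs =>
    ⟨fun h => ⟨h.1, h.2.1, h.2.2⟩, fun h => ⟨h.1, h.2, h.3⟩⟩

/-- `x` belongs to a block of size `k + 1`. -/
def InB (k : ℕ) {L : Type*} [LinearOrder L] (x : L) : Prop := ∃ l r, Blk k l r ∧ l ≤ x ∧ x ≤ r

theorem Dfn.inB (k : ℕ) {n : ℕ} (i : Fin n) : Dfn n fun _ _ xs => InB k (xs i) :=
  Dfn.ex (P := fun L _ xs l => ∃ r, Blk k l r ∧ l ≤ xs i ∧ xs i ≤ r)
    (Dfn.ex (P := fun L _ xs r => Blk k (xs (Fin.last n)) r ∧ xs (Fin.last n) ≤ xs i.castSucc ∧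
        xs i.castSucc ≤ r)
      ((Dfn.blk k (Fin.last n).castSucc (Fin.last (n + 1))).and
        ((Dfn.le (Fin.last n).castSucc i.castSucc.castSucc).and
          (Dfn.le i.castSucc.castSucc (Fin.last (n + 1))))))

section

variable {A N : Type} [LinearOrder A] [Language.order.Structure A]
  [Language.order.OrderedStructure A] [LinearOrder N] [Language.order.Structure N]
  [Language.order.OrderedStructure N]

theorem Dfn.transfer {R : ∀ (L : Type) [LinearOrder L], Prop} (h : Dfn 0 fun L _ _ => R L)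
    (hN : N ⊨ Language.order.completeTheory A) (hA : R A) : R N := by
  obtain ⟨φ, hφ⟩ := h
  have h1 : A ⊨ (φ : Language.order.Sentence) := (hφ A default default).2 hA
  have h2 : (φ : Language.order.Sentence) ∈ Language.order.completeTheory A := h1
  have h3 : N ⊨ (φ : Language.order.Sentence) := Theory.realize_sentence_of_mem _ h2
  exact (hφ N default default).1 h3

theorem ax_transfer {S : Set ℕ} (hN : N ⊨ Language.order.completeTheory A) (hA : Ax S A) :
    Ax S N := by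
  refine ⟨?_, ?_, ?_, ?_, ?_, ?_⟩
  · refine Dfn.transfer (R := fun L _ => ∀ x : L, ∃ l, D l x ∧ NP l) ?_ hN hA.lend
    exact Dfn.all (P := fun L _ _ x => ∃ l, D l x ∧ NP l)
      (Dfn.ex (P := fun L _ xs l => D l (xs 0) ∧ NP l) ((Dfn.d 1 0).and (Dfn.np 1)))
  · refine Dfn.transfer (R := fun L _ => ∀ x : L, ∃ r, D x r ∧ NS r) ?_ hN hA.rend
    exact Dfn.all (P := fun L _ _ x => ∃ r, D x r ∧ NS r)
      (Dfn.ex (P := fun L _ xs r => D (xs 0) r ∧ NS r) ((Dfn.d 0 1).and (Dfn.ns 1)))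
  · intro j u v huv
    by_contra hj
    have h1 : ∀ u v : A, ¬ Blk j u v := fun u v h => hj (hA.size j u v h)
    refine Dfn.transfer (R := fun L _ => ∀ u v : L, ¬ Blk j u v) ?_ hN h1 u v huv
    exact Dfn.all (P := fun L _ _ u => ∀ v : L, ¬ Blk j u v)
      (Dfn.all (P := fun L _ xs v => ¬ Blk j (xs 0) v) (Dfn.blk j 0 1).not)
  · intro j hj
    refine Dfn.transfer (R := fun L _ => ∀ x y : L, x < y → ¬ D x y →
      ∃ u v, Blk j u v ∧ x < u ∧ v < y) ?_ hN (hA.dense j hj)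
    exact Dfn.all (P := fun L _ _ x => ∀ y : L, x < y → ¬ D x y → ∃ u v, Blk j u v ∧ x < u ∧ v < y)
      (Dfn.all (P := fun L _ xs y => xs 0 < y → ¬ D (xs 0) y →
        ∃ u v, Blk j u v ∧ xs 0 < u ∧ v < y) ((Dfn.lt 0 1).imp ((Dfn.d 0 1).not.imp
        (Dfn.ex (P := fun L _ xs u => ∃ v, Blk j u v ∧ xs 0 < u ∧ v < xs 1)
          (Dfn.ex (P := fun L _ xs v => Blk j (xs 2) v ∧ xs 0 < xs 2 ∧ v < xs 1)
            ((Dfn.blk j 2 3).and ((Dfn.lt 0 2).and (Dfn.lt 3 1))))))))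
  · intro j hj
    refine Dfn.transfer (R := fun L _ => ∀ y : L, ∃ u v, Blk j u v ∧ v < y) ?_ hN (hA.below j hj)
    exact Dfn.all (P := fun L _ _ y => ∃ u v, Blk j u v ∧ v < y)
      (Dfn.ex (P := fun L _ xs u => ∃ v, Blk j u v ∧ v < xs 0)
        (Dfn.ex (P := fun L _ xs v => Blk j (xs 1) v ∧ v < xs 0)
          ((Dfn.blk j 1 2).and (Dfn.lt 2 0))))
  · intro j hj
    refine Dfn.transfer (R := fun L _ => ∀ x : L, ∃ u v, Blk j u v ∧ x < u) ?_ hN (hA.above j hj)
    exact Dfn.all (P := fun L _ _ x => ∃ u v, Blk j u v ∧ x < u)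
      (Dfn.ex (P := fun L _ xs u => ∃ v, Blk j u v ∧ xs 0 < u)
        (Dfn.ex (P := fun L _ xs v => Blk j (xs 1) v ∧ xs 0 < xs 1)
          ((Dfn.blk j 1 2).and (Dfn.lt 0 1))))

theorem inB_embed (f : A ↪ₑ[Language.order] N) {j : ℕ} {x : A} (h : InB j (f x)) : InB j x := by
  obtain ⟨φ, hφ⟩ := Dfn.inB j (0 : Fin 1)
  have h1 := f.map_boundedFormula φ (default : Empty → A) (fun _ => x)
  rw [hφ A] at h1
  have h2 := (hφ N (f ∘ default) (f ∘ fun _ => x)).2 h
  exact h1.1 h2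

/-- Orders with the same axioms are elementarily equivalent. -/
theorem elemEquiv {S : Set ℕ} (hSu : ∀ N, ∃ j ∈ S, N < j) [Nonempty A] [Nonempty N]
    (hA : Ax S A) (hN : Ax S N) : N ⊨ Language.order.completeTheory A := by
  refine (Theory.model_iff _).2 fun φ hφ => ?_
  have h1 : A ⊨ φ := hφ
  obtain ⟨k, hk⟩ := realize_iff hSu φ
  exact (hk A N hA hN ∅ Set.finite_empty (sys_empty _) default default default default
    (fun i => i.elim) (fun i => i.elim0)).1 h1

/-- A countable order with finite blocks embeds elementarily in all others. -/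
theorem embed {S : Set ℕ} (hSu : ∀ N, ∃ j ∈ S, N < j) [Nonempty A] [Nonempty N] [Countable A]
    (hA : Ax S A) (hfin : ∀ x : A, ∃ j, InB j x) (hN : Ax S N) :
    Nonempty (A ↪ₑ[Language.order] N) := by
  classical
  obtain ⟨e, he⟩ := exists_surjective_nat A
  let X := {G : Set (A × N) // G.Finite ∧ ∀ K, Sys K G}
  have step : ∀ (G : X) (a : A), ∃ G' : X, G.1 ⊆ G'.1 ∧ ∃ b, (a, b) ∈ G'.1 := by
    rintro ⟨G, hG, hS⟩ a
    obtain ⟨j, l, r, hlr⟩ := hfin a
    obtain ⟨b, G', h1, h2, h3, h4⟩ := forth_fin hA hN hG hS a ⟨j, l, r, hlr⟩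
    exact ⟨⟨G', h2, h3⟩, h1, b, h4⟩
  choose nx hnx1 hnx2 using step
  let g : ℕ → X := fun m => Nat.rec ⟨∅, Set.finite_empty, fun K => sys_empty K⟩
    (fun m G => nx G (e m)) m
  have hg : ∀ m, g (m + 1) = nx (g m) (e m) := fun m => rfl
  have hmono : ∀ m d, (g m).1 ⊆ (g (m + d)).1 := by
    intro m d
    induction d with
    | zero => exact subset_rfl
    | succ d ih =>
      refine ih.trans ?_
      rw [← Nat.add_assoc, hg]
      exact hnx1 _ _
  have hex : ∀ a, ∃ b m, (a, b) ∈ (g m).1 := by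
    intro a
    obtain ⟨m, rfl⟩ := he a
    obtain ⟨b, hb⟩ := hnx2 (g m) (e m)
    exact ⟨b, m + 1, hb⟩
  choose f m hfm using hex
  refine ⟨⟨f, ?_⟩⟩
  intro n φ x
  obtain ⟨k, hk⟩ := realize_iff hSu φ
  let M := Finset.univ.sup fun i => m (x i)
  have h1 : ∀ i, (x i, f (x i)) ∈ (g M).1 := by
    intro i
    have h2 : m (x i) ≤ M := Finset.le_sup (f := fun i => m (x i)) (Finset.mem_univ i)
    have := hmono (m (x i)) (M - m (x i)) (hfm (x i))
    rwa [show m (x i) + (M - m (x i)) = M by omega] at this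
  exact (hk A N hA hN _ (g M).2.1 ((g M).2.2 _) x (f ∘ x) default default h1
    (fun i => i.elim0)).symm

end

end Pool.Agent.V11253.RO
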