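import Pool.Agent.V11253.RO.Comp

set_option autoImplicit false

/-!
A linear order all of whose blocks are finite, with set of sizes `F`, has no computable copy.
-/

namespace Pool.Agent.V11253.RO

open Nat.Partrec (Code)

/-- `c 0 ⋖ c 1 ⋖ ... ⋖ c (n - 1)`. -/
def Chn {L : Type*} [LT L] (n : ℕ) (c : ℕ → L) : Prop := ∀ i, i + 1 < n → c i ⋖ c (i + 1)

/-- `c 0, ..., c (n - 1)` is a maximal chain of consecutive elements. -/
structure FB {L : Type*} [LT L] (n : ℕ) (c : ℕ → L) : Prop where
  pos : 0 < n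
  chn : Chn n c
  left : ∀ w, ¬ w ⋖ c 0
  right : ∀ w, ¬ c (n - 1) ⋖ w

section

variable {L : Type*} [LinearOrder L]

theorem covBy_unique_right {a b c : L} (h : a ⋖ b) (h' : a ⋖ c) : b = c := by
  rcases lt_trichotomy b c with h1 | h1 | h1
  · exact absurd h1 (h'.2 h.1)
  · exact h1
  · exact absurd h1 (h.2 h'.1)

theorem covBy_unique_left {a b c : L} (h : b ⋖ a) (h' : c ⋖ a) : b = c := by
  rcases lt_trichotomy b c with h1 | h1 | h1
  · exact absurd h'.1 (h.2 h1)
  · exact h1
  · exact absurd h.1 (h'.2 h1)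

/-- A chain that meets a block is contained in it. -/
theorem chain_in_block {n k : ℕ} {c v : ℕ → L} (hc : FB n c) (hv : Chn k v) {j t : ℕ} (hj : j < n)
    (ht : t < k) (h : v t = c j) : t ≤ j ∧ k + j ≤ n + t ∧ ∀ d, t + d < k → v (t + d) = c (j + d) := by
  have h1 : ∀ d, d ≤ t → d ≤ j ∧ v (t - d) = c (j - d) := by
    intro d
    induction d with
    | zero => exact fun _ => ⟨Nat.zero_le _, by simpa using h⟩
    | succ d ih =>
      intro hd
      obtain ⟨h2, h3⟩ := ih (by omega)
      have h4 : v (t - (d + 1)) ⋖ v (t - d) := by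
        have := hv (t - (d + 1)) (by omega)
        rwa [show t - (d + 1) + 1 = t - d by omega] at this
      rw [h3] at h4
      have h5 : d < j := by
        by_contra hcon
        have : j - d = 0 := by omega
        rw [this] at h4
        exact hc.left _ h4
      refine ⟨h5, ?_⟩
      have h6 : c (j - (d + 1)) ⋖ c (j - d) := by
        have := hc.chn (j - (d + 1)) (by omega)
        rwa [show j - (d + 1) + 1 = j - d by omega] at this
      exact covBy_unique_left h4 h6
  have h2 : ∀ d, t + d < k → j + d < n ∧ v (t + d) = c (j + d) := by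
    intro d
    induction d with
    | zero => exact fun _ => ⟨hj, h⟩
    | succ d ih =>
      intro hd
      obtain ⟨h2, h3⟩ := ih (by omega)
      have h4 : v (t + d) ⋖ v (t + d + 1) := hv _ (by omega)
      rw [h3] at h4
      have h5 : j + d + 1 < n := by
        by_contra hcon
        have : j + d = n - 1 := by omega
        rw [this] at h4
        exact hc.right _ h4
      exact ⟨h5, covBy_unique_right h4 (hc.chn (j + d) h5)⟩
  refine ⟨(h1 t le_rfl).1, ?_, fun d hd => (h2 d hd).2⟩
  have := (h2 (k - 1 - t) (by omega)).1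
  omega

theorem noncomp (f : L → ℕ) (hf : Function.Injective f)
    (hcomp : ComputablePred fun p : ℕ × ℕ => ∃ x y : L, f x = p.1 ∧ f y = p.2 ∧ x ≤ y)
    (H1 : ∀ n ∈ F, ∃ c : ℕ → L, Chn n c)
    (H2 : ∀ x : L, ∃ n ∈ F, ∃ c : ℕ → L, FB n c ∧ ∃ j < n, c j = x) : False := by
  classical
  obtain ⟨g, hg, hg'⟩ := ComputablePred.computable_iff.1 hcomp
  have hh : Computable fun n : ℕ => cond (g n.unpair) 1 0 :=
    Computable.cond (hg.comp Computable.unpair) (Computable.const 1) (Computable.const 0)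
  obtain ⟨c, hc⟩ := Code.exists_code.1 (Partrec.nat_iff.1 hh.partrec)
  obtain ⟨e, he⟩ : ∃ e, Denumerable.ofNat Code e = c := ⟨Encodable.encode c, by simp⟩
  let r : ℕ → ℕ → Prop := fun x y => ∃ a b : L, f a = x ∧ f b = y ∧ a ≤ b
  have hr : ∀ x y, r x y ↔ g (x, y) = true := fun x y => by
    have := congrFun hg' (x, y)
    exact Iff.of_eq this
  have hev : ∀ s x y v, ev e s x y = some v → v = cond (g (x, y)) 1 0 := by
    intro s x y v h
    have h1 : v ∈ Code.eval c (Nat.pair x y) := by
      rw [← he]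
      exact Code.evaln_sound h
    rw [hc] at h1
    simpa using h1
  have hev2 : ∀ x y, ∃ s₀, ∀ s, s₀ ≤ s → ev e s x y = some (cond (g (x, y)) 1 0) := by
    intro x y
    have h1 : cond (g (x, y)) 1 0 ∈ Code.eval c (Nat.pair x y) := by
      rw [hc]
      simp
    obtain ⟨k, hk⟩ := Code.evaln_complete.1 h1
    refine ⟨k, fun s hs => ev_mono hs ?_⟩
    rw [← he] at hk
    exact hk
  have hunref : ∀ x y, (∀ s, ¬ Refuted e x y s) ↔ ∃ a b : L, f a = x ∧ f b = y ∧ a ⋖ b := by
    intro x y
    constructor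
    · intro h
      have h1 : r x y := by
        by_contra hcon
        obtain ⟨s, hs⟩ := hev2 x y
        refine h s (Or.inl ?_)
        rw [hs s le_rfl]
        rw [hr] at hcon
        simp [hcon]
      obtain ⟨a, b, ha, hb, hab⟩ := h1
      have h2 : ¬ r y x := by
        intro hcon
        obtain ⟨s, hs⟩ := hev2 y x
        refine h s (Or.inr (Or.inl ?_))
        rw [hs s le_rfl]
        rw [hr] at hcon
        simp [hcon]
      have hlt : a < b := lt_of_le_of_ne hab fun hne => h2 ⟨b, a, hb, ha, hne.ge⟩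
      refine ⟨a, b, ha, hb, hlt, fun w hw1 hw2 => ?_⟩
      obtain ⟨s1, hs1⟩ := hev2 x (f w)
      obtain ⟨s2, hs2⟩ := hev2 (f w) y
      have h3 : g (x, f w) = true := (hr _ _).1 ⟨a, w, ha, rfl, hw1.le⟩
      have h4 : g (f w, y) = true := (hr _ _).1 ⟨w, b, rfl, hb, hw2.le⟩
      refine h (max (f w + 1) (max s1 s2)) (Or.inr (Or.inr ⟨f w, by omega, ⟨?_, ?_⟩, ?_, ?_⟩))
      · intro hh
        rw [← ha] at hh
        exact hw1.ne' (hf hh)
      · intro hh
        rw [← hb] at hh
        exact hw2.ne (hf hh)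
      · rw [hs1 _ (by omega), h3]
        rfl
      · rw [hs2 _ (by omega), h4]
        rfl
    · rintro ⟨a, b, ha, hb, hab⟩ s (h | h | ⟨w, hw, ⟨hwx, hwy⟩, h1, h2⟩)
      · have h1 := hev _ _ _ _ h
        have h2 : g (x, y) = true := (hr _ _).1 ⟨a, b, ha, hb, hab.1.le⟩
        simp [h2] at h1
      · have h1 := hev _ _ _ _ h
        have h2 : ¬ g (y, x) = true := by
          rw [← hr]
          rintro ⟨b', a', hb', ha', hle⟩
          have e1 : b' = b := hf (hb'.trans hb.symm)
          have e2 : a' = a := hf (ha'.trans ha.symm)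
          rw [e1, e2] at hle
          exact absurd hab.1 (not_lt.2 hle)
        simp [h2] at h1
      · have h3 := hev _ _ _ _ h1
        have h4 := hev _ _ _ _ h2
        have h5 : r x w := by
          rw [hr]
          cases hgx : g (x, w) with
          | true => rfl
          | false => rw [hgx] at h3; exact absurd h3 (by decide)
        have h6 : r w y := by
          rw [hr]
          cases hgx : g (w, y) with
          | true => rfl
          | false => rw [hgx] at h4; exact absurd h4 (by decide)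
        obtain ⟨a', w1, ha', hw1, hle1⟩ := h5
        obtain ⟨w2, b', hw2, hb', hle2⟩ := h6
        have e1 : a' = a := hf (ha'.trans ha.symm)
        have e2 : b' = b := hf (hb'.trans hb.symm)
        have e3 : w2 = w1 := hf (hw2.trans hw1.symm)
        subst e1 e2 e3
        refine hab.2 (c := w2) (lt_of_le_of_ne hle1 ?_) (lt_of_le_of_ne hle2 ?_)
        · intro hh
          exact hwx (by rw [← hw1, ← hh, ha'])
        · intro hh
          exact hwy (by rw [← hw2, hh, hb'])
  -- chains
  have hchain : ∀ k u, 2 ≤ k → (Chain e k u ↔ ∃ c : ℕ → L, Chn k c ∧ ∀ i < k, f (c i) = sq u i) := by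
    intro k u hk
    constructor
    · intro h
      have h1 : ∀ i, i + 1 < k → ∃ a b : L, f a = sq u i ∧ f b = sq u (i + 1) ∧ a ⋖ b :=
        fun i hi => (hunref _ _).1 fun s => h s i (by omega) hi
      have h2 : ∀ i, i < k → ∃ a : L, f a = sq u i := by
        intro i hi
        rcases Nat.eq_zero_or_pos i with rfl | hpos
        · obtain ⟨a, b, ha, -, -⟩ := h1 0 (by omega)
          exact ⟨a, ha⟩
        · obtain ⟨a, b, -, hb, -⟩ := h1 (i - 1) (by omega)
          rw [show i - 1 + 1 = i by omega] at hb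
          exact ⟨b, hb⟩
      obtain ⟨a0, -⟩ := h2 0 (by omega)
      have : Nonempty L := ⟨a0⟩
      choose! c hc using h2
      refine ⟨c, fun i hi => ?_, hc⟩
      obtain ⟨a, b, ha, hb, hab⟩ := h1 i hi
      have e1 : a = c i := hf (ha.trans (hc i (by omega)).symm)
      have e2 : b = c (i + 1) := hf (hb.trans (hc (i + 1) hi).symm)
      rwa [← e1, ← e2]
    · rintro ⟨c, hc, hcu⟩ s i hi hi'
      exact (hunref _ _).2 ⟨c i, c (i + 1), hcu i hi, hcu (i + 1) hi', hc i hi'⟩ s
  -- the least chain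
  obtain ⟨n, hnF, hn⟩ := F_unbounded (2 * e + 2)
  obtain ⟨c0, hc0⟩ := H1 n hnF
  have hex : ∃ u, Chain e (2 * e + 2) u := by
    obtain ⟨u, hu⟩ := exists_sq (2 * e + 2) fun i => f (c0 i)
    exact ⟨u, (hchain _ _ (by omega)).2 ⟨c0, fun i hi => hc0 i (by omega),
      fun i hi => (hu i hi).symm⟩⟩
  let u := Nat.find hex
  have hu : Chain e (2 * e + 2) u := Nat.find_spec hex
  have hu' : ∀ u' < u, ¬ Chain e (2 * e + 2) u' := fun u' h => Nat.find_min hex h
  obtain ⟨c1, hc1, hc1'⟩ := (hchain _ _ (by omega)).1 hu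
  obtain ⟨m, hmF, b, hb, j, hj, hbj⟩ := H2 (c1 0)
  have hm := chain_in_block hb hc1 hj (t := 0) (by omega) hbj.symm
  have hmem := (mem_F m).1 hmF
  have htrue : ∃ w, TC e m w := by
    obtain ⟨v, hv⟩ := exists_sq m fun i => f (b i)
    refine ⟨Nat.pair u v, (tc_iff _ _ _).2 ?_⟩
    simp only [Nat.unpair_pair]
    refine ⟨hu, (hchain _ _ (by omega)).2 ⟨b, hb.chn, fun i hi => (hv i hi).symm⟩,
      ⟨j, hj, ?_⟩, hu'⟩
    rw [hv j hj, hbj]
    exact hc1' 0 (by omega)
  rcases hmem.2 e (by omega) with h | ⟨w, hw⟩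
  · exact h htrue.choose htrue.choose_spec
  · rw [tc_iff] at hw
    obtain ⟨h1, h2, ⟨t, ht, ht'⟩, h4⟩ := hw
    have h5 : w.unpair.1 = u := by
      rcases lt_trichotomy w.unpair.1 u with h | h | h
      · exact absurd h1 (hu' _ h)
      · exact h
      · exact absurd hu (h4 _ h)
    obtain ⟨v, hv, hv'⟩ := (hchain _ _ (by omega)).1 h2
    have h6 : v t = b j := by
      apply hf
      rw [hv' t ht, ht', h5, hbj]
      exact (hc1' 0 (by omega)).symm
    have h7 := chain_in_block hb hv hj ht h6
    omega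

end

end Pool.Agent.V11253.RO
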