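import Pool.Agent.V11253.RO.Words
import Pool.Agent.V11253.RO.Logic

set_option autoImplicit false
set_option linter.unusedVariables false

/-!
The order of words satisfies the axioms; so does its part that consists of the finite blocks.
-/

namespace Pool.Agent.V11253.RO

section finitePart

variable {A : Type} [LinearOrder A]

theorem inB_succ {j : ℕ} {x w : A} (hx : InB j x) (h : x ⋖ w) : InB j w := by
  obtain ⟨l, r, h1, h2, h3⟩ := hx
  have h4 : x < r := by
    refine h3.lt_of_ne ?_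
    rintro rfl
    exact h1.ns w h
  exact ⟨l, r, h1, h2.trans h.1.le, not_lt.1 fun h5 => h.2 h4 h5⟩

theorem inB_pred {j : ℕ} {x w : A} (hx : InB j x) (h : w ⋖ x) : InB j w := by
  obtain ⟨l, r, h1, h2, h3⟩ := hx
  have h4 : l < x := by
    refine h2.lt_of_ne ?_
    rintro rfl
    exact h1.np w h
  exact ⟨l, r, h1, not_lt.1 fun h5 => h.2 h5 h4, h.1.le.trans h3⟩

theorem inB_first {j : ℕ} {u v : A} (h : Blk j u v) : InB j u :=
  ⟨u, v, h, le_rfl, steps_le h.st⟩

theorem inB_last {j : ℕ} {u v : A} (h : Blk j u v) : InB j v :=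
  ⟨u, v, h, steps_le h.st, le_rfl⟩

/-- The part that consists of the finite blocks. -/
abbrev Fin' (A : Type) [LinearOrder A] : Type := {x : A // ∃ j, InB j x}

variable {S : Set ℕ}

theorem cov_iff (hA : Ax S A) (hne : ∃ j, j ∈ S) {x y : Fin' A} : x ⋖ y ↔ x.1 ⋖ y.1 := by
  constructor
  · intro h
    refine ⟨h.1, fun z hz1 hz2 => ?_⟩
    obtain ⟨j, l, r, h1, h2, h3⟩ := x.2
    by_cases hD : D x.1 y.1
    · have h4 : y.1 ≤ r := by
        by_contra hcon
        push Not at hcon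
        obtain ⟨w, hw⟩ := hD.2.1 r h3 hcon
        exact h1.ns w hw
      exact h.2 (c := ⟨z, j, l, r, h1, h2.trans hz1.le, hz2.le.trans h4⟩) hz1 hz2
    · obtain ⟨i, hi⟩ := hne
      obtain ⟨u, v, h4, h5, h6⟩ := hA.dense i hi _ _ h.1 hD
      exact h.2 (c := ⟨u, i, inB_first h4⟩) h5 ((steps_le h4.st).trans_lt h6)
  · intro h
    exact ⟨h.1, fun z h1 h2 => h.2 h1 h2⟩

theorem np_iff (hA : Ax S A) (hne : ∃ j, j ∈ S) {x : Fin' A} : NP x ↔ NP x.1 := by
  constructor
  · intro h w hw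
    obtain ⟨j, hj⟩ := x.2
    exact h ⟨w, j, inB_pred hj hw⟩ ((cov_iff hA hne).2 hw)
  · intro h w hw
    exact h w.1 ((cov_iff hA hne).1 hw)

theorem ns_iff (hA : Ax S A) (hne : ∃ j, j ∈ S) {x : Fin' A} : NS x ↔ NS x.1 := by
  constructor
  · intro h w hw
    obtain ⟨j, hj⟩ := x.2
    exact h ⟨w, j, inB_succ hj hw⟩ ((cov_iff hA hne).2 hw)
  · intro h w hw
    exact h w.1 ((cov_iff hA hne).1 hw)

theorem steps_iff (hA : Ax S A) (hne : ∃ j, j ∈ S) {j : ℕ} {x y : Fin' A} :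
    Steps j x y ↔ Steps j x.1 y.1 := by
  induction j generalizing x with
  | zero => exact Subtype.ext_iff
  | succ j ih =>
    constructor
    · rintro ⟨z, h1, h2⟩
      exact ⟨z.1, (cov_iff hA hne).1 h1, ih.1 h2⟩
    · rintro ⟨z, h1, h2⟩
      obtain ⟨i, hi⟩ := x.2
      exact ⟨⟨z, i, inB_succ hi h1⟩, (cov_iff hA hne).2 h1, ih.2 h2⟩

theorem blk_iff (hA : Ax S A) (hne : ∃ j, j ∈ S) {j : ℕ} {x y : Fin' A} :
    Blk j x y ↔ Blk j x.1 y.1 :=
  ⟨fun h => ⟨(np_iff hA hne).1 h.np, (ns_iff hA hne).1 h.ns, (steps_iff hA hne).1 h.st⟩,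
    fun h => ⟨(np_iff hA hne).2 h.np, (ns_iff hA hne).2 h.ns, (steps_iff hA hne).2 h.st⟩⟩

theorem d_iff (hA : Ax S A) (hne : ∃ j, j ∈ S) {x y : Fin' A} : D x y ↔ D x.1 y.1 := by
  constructor
  · intro h
    by_contra hcon
    have hlt : x.1 < y.1 := by
      refine lt_of_le_of_ne h.1 fun h1 => hcon ?_
      rw [h1]
      exact D_refl _
    obtain ⟨i, hi⟩ := hne
    obtain ⟨u, v, h4, h5, h6⟩ := hA.dense i hi _ _ hlt hcon
    obtain ⟨w, hw⟩ := h.2.2 ⟨u, i, inB_first h4⟩ h5 ((steps_le h4.st).trans_lt h6).le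
    exact h4.np w.1 ((cov_iff hA ⟨i, hi⟩).1 hw)
  · intro h
    refine ⟨h.1, fun z h1 h2 => ?_, fun z h1 h2 => ?_⟩
    · obtain ⟨w, hw⟩ := h.2.1 z.1 h1 h2
      obtain ⟨j, hj⟩ := z.2
      exact ⟨⟨w, j, inB_succ hj hw⟩, (cov_iff hA hne).2 hw⟩
    · obtain ⟨w, hw⟩ := h.2.2 z.1 h1 h2
      obtain ⟨j, hj⟩ := z.2
      exact ⟨⟨w, j, inB_pred hj hw⟩, (cov_iff hA hne).2 hw⟩

theorem inB_iff (hA : Ax S A) (hne : ∃ j, j ∈ S) {j : ℕ} {x : Fin' A} (h : InB j x.1) :
    InB j x := by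
  obtain ⟨l, r, h1, h2, h3⟩ := h
  exact ⟨⟨l, j, inB_first h1⟩, ⟨r, j, inB_last h1⟩, (blk_iff hA hne).2 h1, h2, h3⟩

theorem ax_fin (hA : Ax S A) (hne : ∃ j, j ∈ S) : Ax S (Fin' A) := by
  refine ⟨?_, ?_, ?_, ?_, ?_, ?_⟩
  · rintro ⟨x, j, l, r, h1, h2, h3⟩
    exact ⟨⟨l, j, inB_first h1⟩, (d_iff hA hne).2 (D_left (steps_D h1.st) h2 h3),
      (np_iff hA hne).2 h1.np⟩
  · rintro ⟨x, j, l, r, h1, h2, h3⟩
    exact ⟨⟨r, j, inB_last h1⟩, (d_iff hA hne).2 (D_right (steps_D h1.st) h2 h3),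
      (ns_iff hA hne).2 h1.ns⟩
  · intro j u v h
    exact hA.size j _ _ ((blk_iff hA hne).1 h)
  · intro j hj x y hxy hD
    rw [d_iff hA hne] at hD
    obtain ⟨u, v, h1, h2, h3⟩ := hA.dense j hj _ _ hxy hD
    exact ⟨⟨u, j, inB_first h1⟩, ⟨v, j, inB_last h1⟩, (blk_iff hA hne).2 h1, h2, h3⟩
  · intro j hj y
    obtain ⟨u, v, h1, h3⟩ := hA.below j hj y.1
    exact ⟨⟨u, j, inB_first h1⟩, ⟨v, j, inB_last h1⟩, (blk_iff hA hne).2 h1, h3⟩
  · intro j hj y
    obtain ⟨u, v, h1, h3⟩ := hA.above j hj y.1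
    exact ⟨⟨u, j, inB_first h1⟩, ⟨v, j, inB_last h1⟩, (blk_iff hA hne).2 h1, h3⟩

theorem fin_inB (hA : Ax S A) (hne : ∃ j, j ∈ S) (x : Fin' A) : ∃ j, InB j x := by
  obtain ⟨j, hj⟩ := x.2
  exact ⟨j, inB_iff hA hne hj⟩

end finitePart

section words

variable (n : ℕ → ℕ) (E : ℕ → ℕ → Prop)

def Wd : Type := {l : List Letter // Val n E l}

noncomputable instance : LinearOrder (Wd n E) where
  le x y := x = y ∨ wlt x.1 y.1
  lt x y := wlt x.1 y.1
  le_refl x := Or.inl rfl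
  le_trans := by
    rintro x y z (rfl | h) (rfl | h')
    · exact Or.inl rfl
    · exact Or.inr h'
    · exact Or.inr h
    · exact Or.inr (wlt_trans h h')
  lt_iff_le_not_ge := by
    intro x y
    constructor
    · intro h
      refine ⟨Or.inr h, ?_⟩
      rintro (rfl | h')
      · exact wlt_irrefl _ h
      · exact wlt_irrefl _ (wlt_trans h h')
    · rintro ⟨rfl | h, h'⟩
      · exact absurd (Or.inl rfl) h'
      · exact h
  le_antisymm := by
    rintro x y (rfl | h) (h' | h')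
    · rfl
    · rfl
    · exact h'.symm
    · exact absurd (wlt_trans h h') (wlt_irrefl _)
  le_total := by
    intro x y
    rcases wlt_tri x.2 y.2 with h | h | h
    · exact Or.inl (Or.inr h)
    · exact Or.inl (Or.inl (Subtype.ext h))
    · exact Or.inr (Or.inr h)
  toDecidableLE := Classical.decRel _

variable {n E}

theorem wd_lt {x y : Wd n E} : x < y ↔ wlt x.1 y.1 := Iff.rfl

theorem wd_le {x y : Wd n E} : x ≤ y ↔ x = y ∨ wlt x.1 y.1 := Iff.rfl

/-- The word `p ++ [t]`. -/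
def wd (p : List Letter) (hp : ∀ a ∈ p, Sep E a) (t : Letter) (ht : Trm n E t) : Wd n E :=
  ⟨p ++ [t], (val_append hp).2 ht⟩

theorem wd_lt_iff {p : List Letter} {hp : ∀ a ∈ p, Sep E a} {t t' : Letter} {ht : Trm n E t}
    {ht' : Trm n E t'} : wd p hp t ht < wd p hp t' ht' ↔ llt t t' := by
  rw [wd_lt]
  change wlt (p ++ [t]) (p ++ [t']) ↔ _
  rw [wlt_append, wlt_cons]
  simp

theorem exists_wd (x : Wd n E) : ∃ p hp t ht, x = wd p hp t ht := by
  obtain ⟨l, hl⟩ := x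
  obtain ⟨p, t, rfl, h2, h3⟩ := val_split hl
  exact ⟨p, h2, t, h3, rfl⟩

theorem cov_of_nobtw {p : List Letter} {hp : ∀ a ∈ p, Sep E a} {t t' : Letter} {ht : Trm n E t}
    {ht' : Trm n E t'} (h : NoBtw n E t t') : wd p hp t ht ⋖ wd p hp t' ht' := by
  refine ⟨wd_lt_iff.2 h.1, fun w h1 h2 => ?_⟩
  obtain ⟨a, h3, h4, h5⟩ := between hp w.2 h1 h2
  refine h.2 a ?_ h4 h5
  rcases h3 with h3 | h3
  · exact Or.inl h3.1
  · exact Or.inr h3.1

/-- Words in one block. -/
theorem d_of_sb (hn : ∀ i, 0 < n i) {p : List Letter} {hp : ∀ a ∈ p, Sep E a} {t t' : Letter}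
    {ht : Trm n E t} {ht' : Trm n E t'} (h : SB E t t') (hlt : llt t t') :
    D (wd p hp t ht) (wd p hp t' ht') := by
  have key : ∀ z : Wd n E, wd p hp t ht < z → z < wd p hp t' ht' →
      ∃ a, ∃ ha : Trm n E a, z = wd p hp a ha ∧ SB E t a ∧ SB E a t' ∧ llt t a ∧ llt a t' := by
    intro z h1 h2
    obtain ⟨a, h3, h4, h5⟩ := between hp z.2 h1 h2
    have h6 := sb_between ht ht' h h4 h5
    rcases h3 with h3 | h3
    · exact absurd h3.1 h6.1
    · exact ⟨a, h3.1, Subtype.ext h3.2, (h6.2 h3.1).1, (h6.2 h3.1).2, h4, h5⟩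
  refine ⟨(wd_lt_iff.2 hlt).le, fun z h1 h2 => ?_, fun z h1 h2 => ?_⟩
  · rcases h1.lt_or_eq with h3 | rfl
    · obtain ⟨a, ha, rfl, h4, h5, h6, h7⟩ := key z h3 h2
      obtain ⟨b, hb, hb'⟩ := (next_of_sb hn ha ht' h5 h7).1
      exact ⟨wd p hp b hb, cov_of_nobtw hb'⟩
    · obtain ⟨b, hb, hb'⟩ := (next_of_sb hn ht ht' h hlt).1
      exact ⟨wd p hp b hb, cov_of_nobtw hb'⟩
  · rcases h2.lt_or_eq with h3 | rfl
    · obtain ⟨a, ha, rfl, h4, h5, h6, h7⟩ := key z h1 h3
      obtain ⟨b, hb, hb'⟩ := (next_of_sb hn ht ha h4 h6).2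
      exact ⟨wd p hp b hb, cov_of_nobtw hb'⟩
    · obtain ⟨b, hb, hb'⟩ := (next_of_sb hn ht ht' h hlt).2
      exact ⟨wd p hp b hb, cov_of_nobtw hb'⟩

theorem btw_cov {x y : Wd n E} (h : x ⋖ y) (hne : ∃ t, Trm n E t) : Same E x.1 y.1 := by
  rcases separation x.2 y.2 h.1 with h1 | ⟨p, hp, h2⟩
  · exact h1
  · obtain ⟨t, ht⟩ := hne
    exact absurd (h2 [t] ht).2 (h.2 (c := wd p hp t ht) (h2 [t] ht).1)

theorem append_inj {p q : List Letter} {t t' : Letter} (h : p ++ [t] = q ++ [t']) :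
    p = q ∧ t = t' := by
  have := List.append_inj' h rfl
  exact ⟨this.1, by simpa using this.2⟩

theorem np_wd {p : List Letter} {hp : ∀ a ∈ p, Sep E a} {t : Letter} {ht : Trm n E t}
    (h : ∀ b, Trm n E b → llt b t → ¬ SB E b t) : NP (wd p hp t ht) := by
  intro w hw
  obtain ⟨q, b, b', h1, h2, h3⟩ := btw_cov hw ⟨t, ht⟩
  obtain ⟨q', hq', c, hc, rfl⟩ := exists_wd w
  obtain ⟨rfl, rfl⟩ := append_inj h1
  obtain ⟨rfl, rfl⟩ := append_inj h2
  exact h _ hc (wd_lt_iff.1 hw.1) h3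

theorem ns_wd {p : List Letter} {hp : ∀ a ∈ p, Sep E a} {t : Letter} {ht : Trm n E t}
    (h : ∀ b, Trm n E b → llt t b → ¬ SB E t b) : NS (wd p hp t ht) := by
  intro w hw
  obtain ⟨q, b, b', h1, h2, h3⟩ := btw_cov hw ⟨t, ht⟩
  obtain ⟨q', hq', c, hc, rfl⟩ := exists_wd w
  obtain ⟨rfl, rfl⟩ := append_inj h1
  obtain ⟨rfl, rfl⟩ := append_inj h2
  exact h _ hc (wd_lt_iff.1 hw.1) h3

theorem same_of_D {x y : Wd n E} (hn : ∀ i, 0 < n i) (h : D x y) (hlt : x < y) :
    Same E x.1 y.1 := by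
  rcases separation x.2 y.2 hlt with h1 | ⟨p, hp, h2⟩
  · exact h1
  · obtain ⟨q, hq, t, ht, rfl⟩ := exists_wd x
    obtain ⟨a, ha, -, ha'⟩ := exists_first hn ht
    obtain ⟨w, hw⟩ := h.2.2 (wd p hp a ha) (h2 [a] ha).1 (Or.inr (h2 [a] ha).2)
    exact absurd hw (np_wd ha' w)

theorem btw_of_not_D {x y : Wd n E} (hn : ∀ i, 0 < n i) (h : ¬ D x y) (hlt : x < y) :
    Btw n E x.1 y.1 := by
  rcases separation x.2 y.2 hlt with h1 | h1
  · exfalso
    obtain ⟨p, t, t', h2, h3, h4⟩ := h1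
    obtain ⟨q, hq, b, hb, rfl⟩ := exists_wd x
    obtain ⟨q', hq', b', hb', rfl⟩ := exists_wd y
    obtain ⟨rfl, rfl⟩ := append_inj h2
    obtain ⟨rfl, rfl⟩ := append_inj h3
    exact h (d_of_sb hn h4 (wd_lt_iff.1 hlt))
  · exact h1

/-- The `k`-th successor. -/
theorem steps_E {p : List Letter} {hp : ∀ a ∈ p, Sep E a} {c h : ℕ} (hc : c % 2 = 0)
    (hh : h % 2 = 1) (k : ℕ) : ∀ (z : ℕ) (hz : z % 2 = 0) (ht : Trm n E (c, h, z)),
      Steps k (wd p hp (c, h, z) ht) (wd p hp (c, h, z + 2 * k) (trm_E hc ht)) := by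
  induction k with
  | zero => exact fun z hz ht => rfl
  | succ k ih =>
    intro z hz ht
    refine ⟨wd p hp (c, h, z + 2) (trm_E hc ht), cov_of_nobtw (nobtw_E hc hh (Or.inl ⟨hz, rfl⟩)),
      ?_⟩
    have := ih (z + 2) (by omega) (trm_E hc ht)
    have e : z + 2 + 2 * k = z + 2 * (k + 1) := by omega
    simp only [e] at this
    exact this

theorem steps_C {p : List Letter} {hp : ∀ a ∈ p, Sep E a} {c : ℕ} (hc : c % 2 = 1)
    (k : ℕ) : ∀ (z : ℕ) (hz : z % 2 = 0) (ht : Trm n E (c, 1, z))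
      (ht' : Trm n E (c, 1, z + 2 * k)),
      Steps k (wd p hp (c, 1, z) ht) (wd p hp (c, 1, z + 2 * k) ht') := by
  induction k with
  | zero => exact fun z hz ht ht' => rfl
  | succ k ih =>
    intro z hz ht ht'
    have h1 : Trm n E (c, 1, z + 2) := by
      refine trmC_mk hc (by omega) ?_
      rcases ht' with ht' | ht'
      · have := ht'.1
        simp only at this
        omega
      · have := ht'.2.2.2
        simp only at this
        omega
    refine ⟨wd p hp (c, 1, z + 2) h1, cov_of_nobtw (nobtw_C hc hz), ?_⟩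
    have := ih (z + 2) (by omega) h1
      (by rwa [show z + 2 + 2 * k = z + 2 * (k + 1) by omega])
    have e : z + 2 + 2 * k = z + 2 * (k + 1) := by omega
    simp only [e] at this
    exact this

/-- The finite blocks. -/
theorem blk_at {p : List Letter} (hp : ∀ a ∈ p, Sep E a) {i j : ℕ} (hi : n i = j + 1)
    (hinf : ∀ N, ∃ s, N ≤ s ∧ E i s) : ∃ h1 h2,
      Blk j (wd p hp (2 * i + 1, 1, 0) h1) (wd (n := n) p hp (2 * i + 1, 1, 2 * j) h2) := by
  have hdiv : (2 * i + 1) / 2 = i := by omega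
  have h1 : Trm n E (2 * i + 1, 1, 0) := trmC_mk (by omega) rfl (by rw [hdiv, hi]; omega)
  have h2 : Trm n E (2 * i + 1, 1, 2 * j) :=
    trmC_mk (by omega) (by omega) (by rw [hdiv, hi]; omega)
  refine ⟨h1, h2, ⟨np_wd ?_, ns_wd ?_, ?_⟩⟩
  · rintro ⟨c, h, z⟩ hb hlt (h3 | ⟨h3, h4, h5⟩)
    · simp only [llt, zlt, Trm] at *
      omega
    · obtain ⟨s, hs1, hs2⟩ := hinf (h / 2 + 1)
      simp only at h3 h4
      refine h5 s (by simp only; omega) ?_
      rwa [show c / 2 = i by omega]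
  · rintro ⟨c, h, z⟩ hb hlt (h3 | ⟨h3, h4, h5⟩)
    · simp only at h3
      obtain ⟨rfl, rfl⟩ := h3
      simp only [llt, zlt, Trm, hdiv, hi] at *
      omega
    · simp only at h3
      omega
  · have := steps_C (n := n) (E := E) (hp := hp) (c := 2 * i + 1) (by omega) j 0 rfl h1
      (by rwa [Nat.zero_add])
    simp only [Nat.zero_add] at this
    exact this

theorem ns_unique {L : Type*} [LinearOrder L] {u v w : L} (h1 : D u v) (h2 : D u w) (h3 : NS v)
    (h4 : NS w) : v = w := by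
  rcases lt_trichotomy v w with h | h | h
  · obtain ⟨a, ha⟩ := h2.2.1 v h1.1 h
    exact absurd ha (h3 a)
  · exact h
  · obtain ⟨a, ha⟩ := h1.2.1 w h2.1 h
    exact absurd ha (h4 a)

theorem size_wd (hn : ∀ i, 0 < n i) {j : ℕ} {u v : Wd n E} (h : Blk j u v) :
    ∃ i, n i = j + 1 ∧ ∀ N, ∃ s, N ≤ s ∧ E i s := by
  obtain ⟨p, hp, ⟨c, h', z⟩, ht, rfl⟩ := exists_wd u
  rcases Nat.mod_two_eq_zero_or_one c with hc | hc
  · exfalso
    have hh : h' % 2 = 1 := by
      rcases ht with ht | ht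
      · exact ht.2.1
      · have := ht.1
        simp only at this
        omega
    have hz : z = 0 := by
      by_contra hz
      rcases Nat.mod_two_eq_zero_or_one z with hz' | hz'
      · exact h.np (wd p hp (c, h', z - 2) (trm_E hc ht))
          (cov_of_nobtw (nobtw_E hc hh (Or.inl (by omega))))
      · exact h.np (wd p hp (c, h', z + 2) (trm_E hc ht))
          (cov_of_nobtw (nobtw_E hc hh (Or.inr (by omega))))
    subst hz
    have h1 := steps_unique h.st (steps_E hc hh j 0 rfl ht)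
    subst h1
    exact h.ns (wd p hp (c, h', 0 + 2 * j + 2) (trm_E hc ht))
      (cov_of_nobtw (nobtw_E hc hh (Or.inl (by omega))))
  · have hh : h' = 1 := by
      rcases ht with ht | ht
      · have := ht.1
        simp only at this
        omega
      · exact ht.2.1
    subst hh
    have hz2 : z % 2 = 0 ∧ z / 2 < n (c / 2) := by
      rcases ht with ht | ht
      · have := ht.1
        simp only at this
        omega
      · exact ht.2.2
    have hz : z = 0 := by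
      by_contra hz
      have h1 : Trm n E (c, 1, z - 2) := trmC_mk hc (by omega) (by omega)
      have h2 := nobtw_C (n := n) (E := E) (c := c) (z := z - 2) hc (by omega)
      rw [show z - 2 + 2 = z by omega] at h2
      exact h.np (wd p hp (c, 1, z - 2) h1) (cov_of_nobtw h2)
    subst hz
    have hpos := hn (c / 2)
    refine ⟨c / 2, ?_, ?_⟩
    · have h2 : Trm n E (c, 1, 0 + 2 * (n (c / 2) - 1)) := trmC_mk hc (by omega) (by omega)
      have h3 := steps_C (n := n) (E := E) (hp := hp) hc (n (c / 2) - 1) 0 rfl ht h2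
      have h4 : NS (wd p hp _ h2) := by
        refine ns_wd ?_
        rintro ⟨c2, h'', z⟩ hb hlt (h3 | ⟨h3, h4, h5⟩)
        · simp only at h3
          obtain ⟨rfl, rfl⟩ := h3
          simp only [llt, zlt, Trm] at *
          omega
        · simp only at h3
          omega
      have h5 := ns_unique (steps_D h.st) (steps_D h3) h.ns h4
      subst h5
      have := steps_len h.st h3
      omega
    · by_contra hcon
      push Not at hcon
      obtain ⟨N, hN⟩ := hcon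
      -- the last stage
      have hlast : ∃ s, VS E (c / 2) s ∧ ∀ s', s < s' → ¬ E (c / 2) s' := by
        clear h
        induction N with
        | zero => exact ⟨0, Or.inl rfl, fun s' _ => hN s' (Nat.zero_le _)⟩
        | succ N ih =>
          by_cases hEN : E (c / 2) N
          · exact ⟨N, Or.inr hEN, fun s' hs' => hN s' hs'⟩
          · refine ih fun s hs => ?_
            rcases Nat.eq_or_lt_of_le hs with rfl | h
            · exact hEN
            · exact hN s h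
      obtain ⟨s, hs1, hs2⟩ := hlast
      have h1 : Trm n E (c - 1, 2 * s + 1, 1) := by
        refine trmE_mk (by omega) (by omega) ?_
        rwa [show (c - 1) / 2 = c / 2 by omega, show (2 * s + 1) / 2 = s by omega]
      have h2 := nobtw_EC (n := n) (E := E) (c := c - 1) (h := 2 * s + 1) (by omega) (by omega)
        (by
          intro s' hs'
          rw [show (c - 1) / 2 = c / 2 by omega]
          exact hs2 s' (by omega))
      rw [show c - 1 + 1 = c by omega] at h2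
      exact h.np (wd p hp _ h1) (cov_of_nobtw h2)

theorem ax_wd (hn : ∀ i, 0 < n i) :
    Ax {j | ∃ i, n i = j + 1 ∧ ∀ N, ∃ s, N ≤ s ∧ E i s} (Wd n E) := by
  refine ⟨?_, ?_, ?_, ?_, ?_, ?_⟩
  · intro x
    obtain ⟨p, hp, t, ht, rfl⟩ := exists_wd x
    obtain ⟨a, ha, h1, h2⟩ := exists_first hn ht
    refine ⟨wd p hp a ha, ?_, np_wd h2⟩
    rcases h1 with rfl | h1
    · exact D_refl _
    · exact d_of_sb hn h1.2 h1.1
  · intro x
    obtain ⟨p, hp, t, ht, rfl⟩ := exists_wd x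
    obtain ⟨a, ha, h1, h2⟩ := exists_last hn ht
    refine ⟨wd p hp a ha, ?_, ns_wd h2⟩
    rcases h1 with rfl | h1
    · exact D_refl _
    · exact d_of_sb hn h1.2 h1.1
  · intro j u v h
    exact size_wd hn h
  · rintro j ⟨i, hi, hinf⟩ x y hlt hD
    obtain ⟨p, hp, h1⟩ := btw_of_not_D hn hD hlt
    obtain ⟨h2, h3, h4⟩ := blk_at hp hi hinf
    exact ⟨_, _, h4, (h1 [_] h2).1, (h1 [_] h3).2⟩
  · rintro j ⟨i, hi, hinf⟩ y
    have hp : ∀ a ∈ List.replicate y.1.length ((0, 0, 0) : Letter), Sep E a := by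
      intro a ha
      rw [List.eq_of_mem_replicate ha]
      exact sep_zero
    obtain ⟨h2, h3, h4⟩ := blk_at (n := n) hp hi hinf
    exact ⟨_, _, h4, low y.2 _ h3⟩
  · rintro j ⟨i, hi, hinf⟩ x
    obtain ⟨a, ha, ha'⟩ := high x.2
    have hp : ∀ b ∈ [a], Sep E b := by simpa using ha
    obtain ⟨h2, h3, h4⟩ := blk_at (n := n) hp hi hinf
    exact ⟨_, _, h4, ha' _⟩

end words

end Pool.Agent.V11253.RO
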