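import Pool.Agent.V11253.RO.NonComp

set_option autoImplicit false

/-!
The linear order of words. The letters are triples `(c, h, z)`:
separators `(2 i, 2 s, 0)`, where `s` is a stage of `i`; elements `(2 i, 2 s + 1, z)` of a block of
type `ω + ω*` after this separator; core elements `(2 i + 1, 1, 2 j)`, `j < n i`.
A word is a list of separators followed by one other letter; words are ordered lexicographically.
-/

namespace Pool.Agent.V11253.RO

/-- `0 < 2 < 4 < ... < 5 < 3 < 1`. -/
def zlt (a b : ℕ) : Prop :=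
  (a % 2 = 0 ∧ b % 2 = 0 ∧ a < b) ∨ (a % 2 = 0 ∧ b % 2 = 1) ∨ (a % 2 = 1 ∧ b % 2 = 1 ∧ b < a)

abbrev Letter : Type := ℕ × ℕ × ℕ

def llt (a b : Letter) : Prop :=
  a.1 < b.1 ∨ (a.1 = b.1 ∧ (a.2.1 < b.2.1 ∨ (a.2.1 = b.2.1 ∧ zlt a.2.2 b.2.2)))

theorem llt_same {c h z z' : ℕ} (hz : zlt z z') : llt (c, h, z) (c, h, z') :=
  Or.inr ⟨rfl, Or.inr ⟨rfl, hz⟩⟩

theorem zlt_zero {z : ℕ} (hz : z ≠ 0) : zlt 0 z := by
  unfold zlt
  omega

theorem zlt_one {z : ℕ} (hz : z ≠ 1) : zlt z 1 := by
  unfold zlt
  omega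

theorem zlt_step {z z' : ℕ} (hz : (z % 2 = 0 ∧ z' = z + 2) ∨ (z' % 2 = 1 ∧ z = z' + 2)) :
    zlt z z' := by
  simp only [zlt]
  omega

theorem zlt_no {z z' w : ℕ} (hz : (z % 2 = 0 ∧ z' = z + 2) ∨ (z' % 2 = 1 ∧ z = z' + 2))
    (h1 : zlt z w) (h2 : zlt w z') : False := by
  simp only [zlt] at *
  omega

theorem llt_trans {a b c : Letter} (h : llt a b) (h' : llt b c) : llt a c := by
  simp only [llt, zlt] at *
  omega

theorem llt_irrefl (a : Letter) : ¬ llt a a := by
  simp only [llt, zlt]
  omega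

theorem llt_tri (a b : Letter) : llt a b ∨ a = b ∨ llt b a := by
  obtain ⟨a1, a2, a3⟩ := a
  obtain ⟨b1, b2, b3⟩ := b
  simp only [llt, zlt, Prod.mk.injEq]
  omega

def wlt : List Letter → List Letter → Prop
  | a :: l, b :: m => llt a b ∨ (a = b ∧ wlt l m)
  | [], _ => False
  | _ :: _, [] => False

@[simp] theorem wlt_nil_left (m : List Letter) : ¬ wlt [] m := by cases m <;> simp [wlt]
@[simp] theorem wlt_nil_right (m : List Letter) : ¬ wlt m [] := by cases m <;> simp [wlt]
theorem wlt_cons {a b : Letter} {l m : List Letter} :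
    wlt (a :: l) (b :: m) ↔ llt a b ∨ (a = b ∧ wlt l m) := Iff.rfl

theorem wlt_irrefl (l : List Letter) : ¬ wlt l l := by
  induction l with
  | nil => simp
  | cons a l ih =>
    rw [wlt_cons]
    rintro (h | h)
    · exact llt_irrefl _ h
    · exact ih h.2

theorem wlt_trans {l m k : List Letter} (h : wlt l m) (h' : wlt m k) : wlt l k := by
  induction l generalizing m k with
  | nil => simp at h
  | cons a l ih =>
    cases m with
    | nil => simp at h
    | cons b m =>
      cases k with
      | nil => simp at h'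
      | cons c k =>
        rw [wlt_cons] at *
        rcases h with h | ⟨rfl, h⟩
        · rcases h' with h' | ⟨rfl, h'⟩
          · exact Or.inl (llt_trans h h')
          · exact Or.inl h
        · rcases h' with h' | ⟨rfl, h'⟩
          · exact Or.inl h'
          · exact Or.inr ⟨rfl, ih h h'⟩

theorem wlt_append (p : List Letter) {l m : List Letter} : wlt (p ++ l) (p ++ m) ↔ wlt l m := by
  induction p with
  | nil => simp
  | cons a p ih => simp [wlt_cons, ih, llt_irrefl]

section

variable (n : ℕ → ℕ) (E : ℕ → ℕ → Prop)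

def VS (i s : ℕ) : Prop := s = 0 ∨ E i s

def Sep (a : Letter) : Prop := a.1 % 2 = 0 ∧ a.2.1 % 2 = 0 ∧ a.2.2 = 0 ∧ VS E (a.1 / 2) (a.2.1 / 2)

def Trm (a : Letter) : Prop :=
  (a.1 % 2 = 0 ∧ a.2.1 % 2 = 1 ∧ VS E (a.1 / 2) (a.2.1 / 2)) ∨
  (a.1 % 2 = 1 ∧ a.2.1 = 1 ∧ a.2.2 % 2 = 0 ∧ a.2.2 / 2 < n (a.1 / 2))

variable {n E} in
theorem sep_mk {c h : ℕ} (hc : c % 2 = 0) (hh : h % 2 = 0) (hv : VS E (c / 2) (h / 2)) :
    Sep E (c, h, 0) := ⟨hc, hh, rfl, hv⟩

variable {n E} in
theorem trmE_mk {c h z : ℕ} (hc : c % 2 = 0) (hh : h % 2 = 1) (hv : VS E (c / 2) (h / 2)) :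
    Trm n E (c, h, z) := Or.inl ⟨hc, hh, hv⟩

variable {n E} in
theorem trmC_mk {c z : ℕ} (hc : c % 2 = 1) (hz : z % 2 = 0) (hv : z / 2 < n (c / 2)) :
    Trm n E (c, 1, z) := Or.inr ⟨hc, rfl, hz, hv⟩

theorem not_sep_trm {a : Letter} (h : Sep E a) (h' : Trm n E a) : False := by
  simp only [Sep, Trm] at *
  omega

def Val : List Letter → Prop
  | [] => False
  | [t] => Trm n E t
  | a :: b :: l => Sep E a ∧ Val (b :: l)

variable {n E}

theorem val_cons {a : Letter} {l : List Letter} (hl : l ≠ []) :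
    Val n E (a :: l) ↔ Sep E a ∧ Val n E l := by
  cases l with
  | nil => exact absurd rfl hl
  | cons b l => exact Iff.rfl

theorem Val.ne_nil {l : List Letter} (h : Val n E l) : l ≠ [] := by
  rintro rfl
  exact h

theorem val_cons_sep {a : Letter} {l : List Letter} (ha : Sep E a) :
    Val n E (a :: l) ↔ Val n E l := by
  cases l with
  | nil =>
    constructor
    · intro h
      exact (not_sep_trm n E ha h).elim
    · intro h
      exact h.elim
  | cons b l => exact ⟨fun h => h.2, fun h => ⟨ha, h⟩⟩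

theorem val_append {p l : List Letter} (hp : ∀ a ∈ p, Sep E a) :
    Val n E (p ++ l) ↔ Val n E l := by
  induction p with
  | nil => simp
  | cons a p ih =>
    rw [List.cons_append, val_cons_sep (hp a (by simp))]
    exact ih fun b hb => hp b (by simp [hb])

theorem val_cases {l : List Letter} (h : Val n E l) :
    (∃ t, l = [t] ∧ Trm n E t) ∨ (∃ a m, l = a :: m ∧ Sep E a ∧ Val n E m) := by
  cases l with
  | nil => exact h.elim
  | cons a l =>
    cases l with
    | nil => exact Or.inl ⟨a, rfl, h⟩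
    | cons b l => exact Or.inr ⟨a, _, rfl, h.1, h.2⟩

theorem val_split {l : List Letter} (h : Val n E l) :
    ∃ p t, l = p ++ [t] ∧ (∀ a ∈ p, Sep E a) ∧ Trm n E t := by
  induction l with
  | nil => exact h.elim
  | cons a l ih =>
    cases l with
    | nil => exact ⟨[], a, rfl, by simp, h⟩
    | cons b l =>
      obtain ⟨p, t, h1, h2, h3⟩ := ih h.2
      refine ⟨a :: p, t, by simp [h1], ?_, h3⟩
      intro c hc
      rcases List.mem_cons.1 hc with rfl | hc
      · exact h.1
      · exact h2 c hc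

theorem wlt_tri {l m : List Letter} (hl : Val n E l) (hm : Val n E m) :
    wlt l m ∨ l = m ∨ wlt m l := by
  induction l generalizing m with
  | nil => exact hl.elim
  | cons a l ih =>
    cases m with
    | nil => exact hm.elim
    | cons b m =>
      rcases llt_tri a b with h | rfl | h
      · exact Or.inl (Or.inl h)
      · rcases val_cases hl with ⟨t, h1, h2⟩ | ⟨_, _, h1, h2, h3⟩
        · rcases val_cases hm with ⟨t', h1', h2'⟩ | ⟨_, _, h1', h2', h3'⟩
          · simp only [List.cons.injEq] at h1 h1'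
            exact Or.inr (Or.inl (by rw [h1.2, h1'.2]))
          · simp only [List.cons.injEq] at h1 h1'
            obtain ⟨rfl, -⟩ := h1
            obtain ⟨rfl, -⟩ := h1'
            exact (not_sep_trm n E h2' h2).elim
        · simp only [List.cons.injEq] at h1
          obtain ⟨rfl, rfl⟩ := h1
          rcases val_cases hm with ⟨t', h1', h2'⟩ | ⟨_, _, h1', h2', h3'⟩
          · simp only [List.cons.injEq] at h1'
            obtain ⟨rfl, -⟩ := h1'
            exact (not_sep_trm n E h2 h2').elim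
          · simp only [List.cons.injEq] at h1'
            obtain ⟨-, rfl⟩ := h1'
            rcases ih h3 h3' with h | rfl | h
            · exact Or.inl (Or.inr ⟨rfl, h⟩)
            · exact Or.inr (Or.inl rfl)
            · exact Or.inr (Or.inr (Or.inr ⟨rfl, h⟩))
      · exact Or.inr (Or.inr (Or.inl h))

/-- The letters `t`, `t'` belong to one block. -/
def SB (E : ℕ → ℕ → Prop) (t t' : Letter) : Prop :=
  (t.1 = t'.1 ∧ t.2.1 = t'.2.1) ∨
  (t.1 % 2 = 0 ∧ t'.1 = t.1 + 1 ∧ ∀ s, t.2.1 / 2 < s → ¬ E (t.1 / 2) s)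

theorem sep_between {t t' : Letter} (ht : Trm n E t) (ht' : Trm n E t') (h : llt t t')
    (hSB : ¬ SB E t t') : ∃ a, Sep E a ∧ llt t a ∧ llt a t' := by
  obtain ⟨c, h1, z⟩ := t
  obtain ⟨c', h1', z'⟩ := t'
  simp only [Trm, llt, SB, Sep, VS] at *
  rcases Nat.mod_two_eq_zero_or_one c' with hc' | hc'
  · rcases Nat.lt_or_ge c c' with hlt | hge
    · refine ⟨(c', 0, 0), ⟨hc', rfl, rfl, Or.inl (Nat.zero_div 2)⟩, Or.inl hlt, Or.inr ⟨rfl, Or.inl ?_⟩⟩
      simp only
      omega
    · have : c = c' := by omega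
      subst this
      refine ⟨(c, h1' - 1, 0), ?_, ?_, ?_⟩
      rotate_left
      · have : h1 ≠ h1' := fun h => hSB (Or.inl ⟨rfl, h⟩)
        have h1odd : h1 % 2 = 1 := by omega
        refine Or.inr ⟨rfl, ?_⟩
        simp only
        omega
      · refine Or.inr ⟨rfl, ?_⟩
        simp only
        omega
      simp only
      rcases ht' with ⟨-, h2, h3⟩ | h2
      · refine ⟨hc', by omega, trivial, ?_⟩
        rw [show (h1' - 1) / 2 = h1' / 2 by omega]
        exact h3
      · omega
  · rcases Nat.lt_or_ge (c + 1) c' with hlt | hge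
    · refine ⟨(c' - 1, 0, 0), ⟨?_, rfl, rfl, Or.inl (Nat.zero_div 2)⟩, Or.inl ?_, Or.inl ?_⟩
      · simp only
        omega
      · simp only
        omega
      · simp only
        omega
    · rcases Nat.lt_or_ge c c' with hlt2 | hge2
      · have hcc : c' = c + 1 := by omega
        have hc : c % 2 = 0 := by omega
        push Not at hSB
        obtain ⟨s, hs1, hs2⟩ := hSB.2 hc hcc
        refine ⟨(c, 2 * s, 0), ?_, Or.inr ⟨rfl, ?_⟩, Or.inl ?_⟩
        rotate_left
        · simp only
          omega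
        · simp only
          omega
        simp only
        refine ⟨hc, by omega, trivial, Or.inr ?_⟩
        rwa [show 2 * s / 2 = s by omega]
      · omega

/-- There is no letter between `t` and `t'`. -/
def NoBtw (n : ℕ → ℕ) (E : ℕ → ℕ → Prop) (t t' : Letter) : Prop :=
  llt t t' ∧ ∀ a, Sep E a ∨ Trm n E a → llt t a → ¬ llt a t'

theorem low {m : List Letter} (hm : Val n E m) : ∀ w, Val n E w →
    wlt (List.replicate m.length (0, 0, 0) ++ w) m := by
  induction m with
  | nil => exact hm.elim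
  | cons a m ih =>
    intro w hw
    rcases val_cases hm with ⟨t, h1, h2⟩ | ⟨_, _, h1, h2, h3⟩
    · simp only [List.cons.injEq] at h1
      obtain ⟨rfl, rfl⟩ := h1
      refine Or.inl ?_
      simp only [Trm, llt, zlt] at *
      omega
    · simp only [List.cons.injEq] at h1
      obtain ⟨rfl, rfl⟩ := h1
      have h4 : llt (0, 0, 0) a ∨ (0, 0, 0) = a := by
        obtain ⟨a1, a2, a3⟩ := a
        simp only [Sep, llt, zlt, Prod.mk.injEq] at *
        omega
      rcases h4 with h4 | h4
      · exact Or.inl h4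
      · exact Or.inr ⟨h4, ih h3 w hw⟩

theorem high {m : List Letter} (hm : Val n E m) : ∃ a, Sep E a ∧ ∀ w, wlt m (a :: w) := by
  cases m with
  | nil => exact hm.elim
  | cons b m =>
    refine ⟨(2 * (b.1 + 1), 0, 0), ?_, fun w => Or.inl ?_⟩
    · refine sep_mk (by omega) (by omega) (Or.inl (by omega))
    · simp only [llt]
      omega

theorem sep_zero : Sep E (0, 0, 0) := by simp [Sep, VS]

/-- Two words belong to one block. -/
def Same (E : ℕ → ℕ → Prop) (l m : List Letter) : Prop :=
  ∃ p t t', l = p ++ [t] ∧ m = p ++ [t'] ∧ SB E t t'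

/-- A whole copy of the order is between two words. -/
def Btw (n : ℕ → ℕ) (E : ℕ → ℕ → Prop) (l m : List Letter) : Prop :=
  ∃ p, (∀ a ∈ p, Sep E a) ∧ ∀ w, Val n E w → wlt l (p ++ w) ∧ wlt (p ++ w) m

theorem separation {l m : List Letter} (hl : Val n E l) (hm : Val n E m) (h : wlt l m) :
    Same E l m ∨ Btw n E l m := by
  induction l generalizing m with
  | nil => exact hl.elim
  | cons a l ih =>
    rcases val_cases hl with ⟨t, h1, h2⟩ | ⟨_, _, h1, h2, h3⟩
    · simp only [List.cons.injEq] at h1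
      obtain ⟨rfl, rfl⟩ := h1
      rcases val_cases hm with ⟨t', rfl, h2'⟩ | ⟨b, m', rfl, h2', h3'⟩
      · have h4 : llt a t' := by
          rcases h with h | h
          · exact h
          · simp at h
        by_cases hSB : SB E a t'
        · exact Or.inl ⟨[], a, t', rfl, rfl, hSB⟩
        · obtain ⟨b, hb1, hb2, hb3⟩ := sep_between h2 h2' h4 hSB
          refine Or.inr ⟨[b], by simpa using hb1, fun w _ => ⟨Or.inl hb2, Or.inl hb3⟩⟩
      · have h4 : llt a b := by
          rcases h with h | h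
          · exact h
          · simp at h
        refine Or.inr ⟨b :: List.replicate m'.length (0, 0, 0), ?_, fun w hw => ⟨Or.inl h4, ?_⟩⟩
        · intro c hc
          rcases List.mem_cons.1 hc with rfl | hc
          · exact h2'
          · rw [List.eq_of_mem_replicate hc]
            exact sep_zero
        · rw [List.cons_append]
          exact Or.inr ⟨rfl, low h3' w hw⟩
    · simp only [List.cons.injEq] at h1
      obtain ⟨rfl, rfl⟩ := h1
      have key : ∀ b m', llt a b → Btw n E (a :: l) (b :: m') := by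
        intro b m' hab
        obtain ⟨d, hd, hd'⟩ := high h3
        refine ⟨[a, d], by simp [h2, hd], fun w _ => ⟨Or.inr ⟨rfl, hd' _⟩, Or.inl hab⟩⟩
      cases m with
      | nil => exact hm.elim
      | cons b m =>
        rcases h with h | ⟨rfl, h⟩
        · exact Or.inr (key b m h)
        · rcases val_cases hm with ⟨t', h1', h2'⟩ | ⟨_, _, h1', h2', h3'⟩
          · simp only [List.cons.injEq] at h1'
            obtain ⟨rfl, -⟩ := h1'
            exact (not_sep_trm n E h2 h2').elim
          · simp only [List.cons.injEq] at h1'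
            obtain ⟨-, rfl⟩ := h1'
            rcases ih h3 h3' h with ⟨p, t, t', h4, h5, h6⟩ | ⟨p, hp, hp'⟩
            · exact Or.inl ⟨a :: p, t, t', by simp [h4], by simp [h5], h6⟩
            · refine Or.inr ⟨a :: p, ?_, fun w hw => ⟨Or.inr ⟨rfl, (hp' w hw).1⟩,
                Or.inr ⟨rfl, (hp' w hw).2⟩⟩⟩
              intro c hc
              rcases List.mem_cons.1 hc with rfl | hc
              · exact h2
              · exact hp c hc

/-- Words between two words of one block belong to this block. -/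
theorem between {p w : List Letter} {t t' : Letter} (hp : ∀ a ∈ p, Sep E a) (hw : Val n E w)
    (h1 : wlt (p ++ [t]) w) (h2 : wlt w (p ++ [t'])) :
    ∃ a, ((Sep E a ∧ w ≠ p ++ [a]) ∨ (Trm n E a ∧ w = p ++ [a])) ∧ llt t a ∧ llt a t' := by
  induction p generalizing w with
  | nil =>
    cases w with
    | nil => exact hw.elim
    | cons a w =>
      have h1' : llt t a := by
        rcases h1 with h | h
        · exact h
        · simp at h
      have h2' : llt a t' := by
        rcases h2 with h | h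
        · exact h
        · simp at h
      refine ⟨a, ?_, h1', h2'⟩
      rcases val_cases hw with ⟨t, h3, h4⟩ | ⟨_, _, h3, h4, h5⟩
      · simp only [List.cons.injEq] at h3
        obtain ⟨rfl, rfl⟩ := h3
        exact Or.inr ⟨h4, rfl⟩
      · simp only [List.cons.injEq] at h3
        obtain ⟨rfl, rfl⟩ := h3
        refine Or.inl ⟨h4, ?_⟩
        have := h5.ne_nil
        simpa using this
  | cons b p ih =>
    cases w with
    | nil => exact hw.elim
    | cons a w =>
      have hab : b = a := by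
        rcases h1 with h | h
        · rcases h2 with h' | h'
          · exact absurd (llt_trans h h') (llt_irrefl _)
          · exact h'.1.symm
        · exact h.1
      subst hab
      have hb : Sep E b := hp b (by simp)
      have h1' : wlt (p ++ [t]) w := by
        rcases h1 with h | h
        · exact absurd h (llt_irrefl _)
        · exact h.2
      have h2' : wlt w (p ++ [t']) := by
        rcases h2 with h | h
        · exact absurd h (llt_irrefl _)
        · exact h.2
      obtain ⟨c, h3, h4, h5⟩ := ih (fun a ha => hp a (by simp [ha]))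
        ((val_cons_sep hb).1 hw) h1' h2'
      refine ⟨c, ?_, h4, h5⟩
      rcases h3 with h3 | h3
      · exact Or.inl ⟨h3.1, by simpa using h3.2⟩
      · exact Or.inr ⟨h3.1, by simpa using h3.2⟩

theorem sb_between {t t' a : Letter} (ht : Trm n E t) (ht' : Trm n E t') (h : SB E t t')
    (h1 : llt t a) (h2 : llt a t') : ¬ Sep E a ∧ (Trm n E a → SB E t a ∧ SB E a t') := by
  obtain ⟨c, h3, z⟩ := t
  obtain ⟨c', h3', z'⟩ := t'
  obtain ⟨c2, h4, z2⟩ := a
  simp only [Trm, llt, SB, Sep, VS] at *
  rcases h with ⟨rfl, rfl⟩ | ⟨hc, rfl, hE⟩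
  · have hc2 : c2 = c := by omega
    subst hc2
    have hh : h4 = h3 := by omega
    subst hh
    refine ⟨?_, fun _ => ⟨Or.inl ⟨rfl, rfl⟩, Or.inl ⟨rfl, rfl⟩⟩⟩
    rintro ⟨h5, h6, -, -⟩
    omega
  · have hlast : c2 = c → VS E (c / 2) (h4 / 2) → h4 = h3 ∨ (h4 = h3 - 1) := by
      intro hcc hv
      rcases hv with hv | hv
      · omega
      · have : ¬ h3 / 2 < h4 / 2 := fun hlt => hE _ hlt hv
        omega
    constructor
    · rintro ⟨h5, h6, h7, h8⟩
      have hcc : c2 = c := by omega
      subst hcc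
      have := hlast rfl h8
      omega
    · rintro (⟨h5, h6, h7⟩ | ⟨h5, h6, h7, h8⟩)
      · have hcc : c2 = c := by omega
        subst hcc
        have := hlast rfl h7
        have h9 : h4 = h3 := by omega
        subst h9
        exact ⟨Or.inl ⟨rfl, rfl⟩, Or.inr ⟨hc, rfl, hE⟩⟩
      · have hcc : c2 = c + 1 := by omega
        subst hcc
        refine ⟨Or.inr ⟨hc, rfl, hE⟩, Or.inl ⟨rfl, ?_⟩⟩
        omega

theorem nobtw_same {c h z z' : ℕ}
    (hz : (z % 2 = 0 ∧ z' = z + 2) ∨ (z' % 2 = 1 ∧ z = z' + 2)) :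
    NoBtw n E (c, h, z) (c, h, z') := by
  refine ⟨llt_same (zlt_step hz), ?_⟩
  rintro ⟨c2, h2, z2⟩ ha h3 h4
  rcases h3 with h3 | ⟨h3, h3' | ⟨h3', h5⟩⟩
  · rcases h4 with h4 | ⟨h4, -⟩ <;> simp only at * <;> omega
  · rcases h4 with h4 | ⟨h4, h4' | ⟨h4', -⟩⟩ <;> simp only at * <;> omega
  · rcases h4 with h4 | ⟨h4, h4' | ⟨h4', h6⟩⟩
    · simp only at *
      omega
    · simp only at *
      omega
    · exact zlt_no hz h5 h6

theorem nobtw_E {c h z z' : ℕ} (_hc : c % 2 = 0) (_hh : h % 2 = 1)
    (hz : (z % 2 = 0 ∧ z' = z + 2) ∨ (z' % 2 = 1 ∧ z = z' + 2)) :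
    NoBtw n E (c, h, z) (c, h, z') := nobtw_same hz

theorem nobtw_C {c z : ℕ} (_hc : c % 2 = 1) (hz : z % 2 = 0) :
    NoBtw n E (c, 1, z) (c, 1, z + 2) := by
  exact nobtw_same (Or.inl ⟨hz, rfl⟩)

theorem nobtw_EC {c h : ℕ} (_hc : c % 2 = 0) (hh : h % 2 = 1)
    (hE : ∀ s, h / 2 < s → ¬ E (c / 2) s) : NoBtw n E (c, h, 1) (c + 1, 1, 0) := by
  refine ⟨by simp only [llt, zlt]; omega, ?_⟩
  rintro ⟨c2, h2, z2⟩ ha h3 h4
  have hv : c2 = c → VS E (c / 2) (h2 / 2) → ¬ h / 2 < h2 / 2 := by
    rintro hcc (hv | hv) hlt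
    · omega
    · exact hE _ hlt hv
  simp only [llt, zlt, Sep, Trm] at *
  rcases ha with ⟨h5, h6, h7, h8⟩ | ⟨h5, h6, h7⟩ | h5
  · have hcc : c2 = c := by omega
    subst hcc
    have := hv rfl h8
    omega
  · have hcc : c2 = c := by omega
    subst hcc
    have := hv rfl h7
    omega
  · omega

theorem trm_E {c h z z' : ℕ} (hc : c % 2 = 0) (h' : Trm n E (c, h, z)) : Trm n E (c, h, z') := by
  rcases h' with h' | h'
  · exact Or.inl h'
  · have := h'.1
    simp only at this
    omega

/-- Successors and predecessors of letters inside a block. -/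
theorem next_of_sb (hn : ∀ i, 0 < n i) {t t' : Letter} (ht : Trm n E t) (ht' : Trm n E t')
    (h : SB E t t') (hlt : llt t t') :
    (∃ a, Trm n E a ∧ NoBtw n E t a) ∧ (∃ a, Trm n E a ∧ NoBtw n E a t') := by
  obtain ⟨c, h3, z⟩ := t
  obtain ⟨c', h3', z'⟩ := t'
  rcases Nat.mod_two_eq_zero_or_one c with hc | hc
  · have hh : h3 % 2 = 1 := by
      simp only [Trm] at ht
      omega
    constructor
    · rcases Nat.mod_two_eq_zero_or_one z with hz | hz
      · exact ⟨(c, h3, z + 2), trm_E hc ht, nobtw_E hc hh (Or.inl ⟨hz, rfl⟩)⟩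
      · by_cases hz1 : z = 1
        · subst hz1
          rcases h with ⟨h4, h5⟩ | ⟨-, h4, h5⟩
          · simp only [llt, zlt] at *
            omega
          · refine ⟨(c + 1, 1, 0), ?_, nobtw_EC hc hh h5⟩
            have := hn ((c + 1) / 2)
            exact trmC_mk (by omega) rfl (by simpa using this)
        · exact ⟨(c, h3, z - 2), trm_E hc ht, nobtw_E hc hh (Or.inr ⟨by omega, by omega⟩)⟩
    · rcases h with ⟨h4, h5⟩ | ⟨-, h4, h5⟩
      · simp only at h4 h5
        subst h4 h5
        rcases Nat.mod_two_eq_zero_or_one z' with hz | hz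
        · refine ⟨(c, h3, z' - 2), trm_E hc ht, nobtw_E hc hh (Or.inl ?_)⟩
          simp only [llt, zlt] at hlt
          omega
        · exact ⟨(c, h3, z' + 2), trm_E hc ht, nobtw_E hc hh (Or.inr ⟨hz, rfl⟩)⟩
      · simp only at h4 h5
        subst h4
        simp only [Trm] at ht'
        have h6 : h3' = 1 := by omega
        subst h6
        by_cases hz : z' = 0
        · subst hz
          exact ⟨(c, h3, 1), trm_E hc ht, nobtw_EC hc hh h5⟩
        · refine ⟨(c + 1, 1, z' - 2), ?_, ?_⟩
          · refine trmC_mk (by omega) (by omega) ?_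
            rcases ht' with ht' | ht'
            · omega
            · omega
          · have := nobtw_C (n := n) (E := E) (c := c + 1) (z := z' - 2) (by omega) (by omega)
            rwa [show z' - 2 + 2 = z' by omega] at this
  · simp only [Trm, SB] at ht ht' h
    have h4 : c' = c := by omega
    have h5 : h3 = 1 := by omega
    have h6 : h3' = 1 := by omega
    subst h4 h5 h6
    simp only [llt, zlt] at hlt
    constructor
    · refine ⟨(c', 1, z + 2), trmC_mk (by omega) (by omega) (by omega), nobtw_C hc (by omega)⟩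
    · refine ⟨(c', 1, z' - 2), trmC_mk (by omega) (by omega) (by omega), ?_⟩
      · have := nobtw_C (n := n) (E := E) (c := c') (z := z' - 2) hc (by omega)
        rwa [show z' - 2 + 2 = z' by omega] at this

/-- The first letter of a block. -/
theorem exists_first (hn : ∀ i, 0 < n i) {t : Letter} (ht : Trm n E t) :
    ∃ a, Trm n E a ∧ (a = t ∨ (llt a t ∧ SB E a t)) ∧
      ∀ b, Trm n E b → llt b a → ¬ SB E b a := by
  obtain ⟨c, h, z⟩ := t
  have key : ∀ c h, c % 2 = 0 → ∀ b, Trm n E b → llt b (c, h, 0) → ¬ SB E b (c, h, 0) := by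
    intro c h hc b hb h1 h2
    simp only [Trm, llt, zlt, SB] at *
    omega
  rcases Nat.mod_two_eq_zero_or_one c with hc | hc
  · refine ⟨(c, h, 0), trm_E hc ht, ?_, key c h hc⟩
    by_cases hz : z = 0
    · exact Or.inl (by rw [hz])
    · exact Or.inr ⟨llt_same (zlt_zero hz), Or.inl ⟨rfl, rfl⟩⟩
  · have hh : h = 1 := by
      simp only [Trm] at ht
      omega
    subst hh
    by_cases hinf : ∀ N, ∃ s, N ≤ s ∧ E (c / 2) s
    · refine ⟨(c, 1, 0), ?_, ?_, ?_⟩
      · exact trmC_mk hc rfl (by simpa using hn (c / 2))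
      · by_cases hz : z = 0
        · exact Or.inl (by rw [hz])
        · exact Or.inr ⟨llt_same (zlt_zero hz), Or.inl ⟨rfl, rfl⟩⟩
      · intro b hb h1 h2
        rcases h2 with h2 | ⟨h2, h3, h4⟩
        · simp only [Trm, llt, zlt] at *
          omega
        · obtain ⟨s, hs1, hs2⟩ := hinf (b.2.1 / 2 + 1)
          refine h4 s (by omega) ?_
          rwa [show b.1 / 2 = c / 2 by simp only at h3; omega]
    · push Not at hinf
      obtain ⟨N, hN⟩ := hinf
      -- the last stage
      have hlast : ∃ s, VS E (c / 2) s ∧ ∀ s', s < s' → ¬ E (c / 2) s' := by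
        clear ht
        induction N with
        | zero => exact ⟨0, Or.inl rfl, fun s' _ => hN s' (Nat.zero_le _)⟩
        | succ N ih =>
          by_cases hEN : E (c / 2) N
          · exact ⟨N, Or.inr hEN, fun s' hs' => hN s' hs'⟩
          · refine ih fun s hs => ?_
            rcases Nat.eq_or_lt_of_le hs with rfl | h
            · exact hEN
            · exact hN s h
      obtain ⟨s, hs1, hs2⟩ := hlast
      refine ⟨(c - 1, 2 * s + 1, 0), ?_, Or.inr ⟨?_, ?_⟩, key _ _ (by omega)⟩
      · refine Or.inl ⟨by simp only; omega, by simp only; omega, ?_⟩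
        simp only
        rwa [show (c - 1) / 2 = c / 2 by omega, show (2 * s + 1) / 2 = s by omega]
      · simp only [llt]
        omega
      · refine Or.inr ⟨by simp only; omega, by simp only; omega, ?_⟩
        simp only
        rwa [show (c - 1) / 2 = c / 2 by omega, show (2 * s + 1) / 2 = s by omega]

/-- The last letter of a block. -/
theorem exists_last (hn : ∀ i, 0 < n i) {t : Letter} (ht : Trm n E t) :
    ∃ a, Trm n E a ∧ (t = a ∨ (llt t a ∧ SB E t a)) ∧
      ∀ b, Trm n E b → llt a b → ¬ SB E a b := by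
  obtain ⟨c, h, z⟩ := t
  have key : ∀ c, c % 2 = 1 → ∀ b, Trm n E b → llt (c, 1, 2 * (n (c / 2) - 1)) b →
      ¬ SB E (c, 1, 2 * (n (c / 2) - 1)) b := by
    intro c hc b hb h1 h2
    obtain ⟨c2, h2', z2⟩ := b
    rcases h2 with ⟨h3, h4⟩ | ⟨h3, -⟩
    · simp only at h3 h4
      subst h3 h4
      simp only [Trm, llt, zlt] at *
      omega
    · simp only at h3
      omega
  have keyT : ∀ c, c % 2 = 1 → Trm n E (c, 1, 2 * (n (c / 2) - 1)) := by
    intro c hc
    have := hn (c / 2)
    exact trmC_mk hc (by omega) (by omega)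
  rcases Nat.mod_two_eq_zero_or_one c with hc | hc
  · by_cases hE : ∀ s, h / 2 < s → ¬ E (c / 2) s
    · refine ⟨_, keyT (c + 1) (by omega), Or.inr ⟨?_, Or.inr ⟨hc, rfl, hE⟩⟩, key _ (by omega)⟩
      simp only [llt]
      omega
    · refine ⟨(c, h, 1), trm_E hc ht, ?_, ?_⟩
      · by_cases hz : z = 1
        · exact Or.inl (by rw [hz])
        · exact Or.inr ⟨llt_same (zlt_one hz), Or.inl ⟨rfl, rfl⟩⟩
      · intro b hb h1 h2
        rcases h2 with h2 | ⟨-, -, h4⟩
        · simp only [llt, zlt] at *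
          omega
        · exact hE h4
  · have hh : h = 1 := by
      simp only [Trm] at ht
      omega
    subst hh
    refine ⟨_, keyT c hc, ?_, key _ hc⟩
    by_cases hz : z = 2 * (n (c / 2) - 1)
    · exact Or.inl (by rw [hz])
    · refine Or.inr ⟨llt_same ?_, Or.inl ⟨rfl, rfl⟩⟩
      have := hn (c / 2)
      simp only [zlt, Trm] at *
      omega

end

end Pool.Agent.V11253.RO
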